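import Mathlib

/-!
# H79S: small transversals in partitionable graphs with clique number 3 (problem MP_602a3b_co)

Combinatorial data of a partitionable graph: maximum cliques `K i`, maximum stable sets `S i`,
`K i` and `S j` disjoint iff `i = j`, otherwise meeting in exactly one vertex.
-/

set_option autoImplicit false

namespace Pool.Agent.H79S

open Finset

/-- The combinatorial data of an `(a, k)`-partitionable graph. -/
structure PSys (V ι : Type) [Fintype V] [DecidableEq V] [Fintype ι] [DecidableEq ι]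
    (a k : ℕ) where
  K : ι → Finset V
  S : ι → Finset V
  cardK : ∀ i, (K i).card = k
  cardS : ∀ i, (S i).card = a
  cardV : Fintype.card V = a * k + 1
  cardI : Fintype.card ι = a * k + 1
  dis : ∀ i, Disjoint (K i) (S i)
  one : ∀ i j, i ≠ j → (K i ∩ S j).card = 1
  uniq : ∀ u v, u ≠ v → ∃! i, u ∈ K i ∧ v ∈ S i
  degK : ∀ v, (univ.filter (fun i => v ∈ K i)).card = k
  degS : ∀ v, (univ.filter (fun i => v ∈ S i)).card = a

variable {V ι : Type} [Fintype V] [DecidableEq V] [Fintype ι] [DecidableEq ι] {a k : ℕ}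

namespace PSys

/-- a small transversal of the system -/
def IsST (P : PSys V ι a k) (T : Finset V) : Prop :=
  T.card = a + k - 1 ∧ (∀ i, ¬ Disjoint T (P.K i)) ∧ (∀ i, ¬ Disjoint T (P.S i))

variable (P : PSys V ι a k)

theorem ne_of_KS {i : ι} {x y : V} (hx : x ∈ P.K i) (hy : y ∈ P.S i) : x ≠ y := by
  rintro rfl
  exact (Finset.disjoint_left.mp (P.dis i)) hx hy

theorem notS {i : ι} {x : V} (hx : x ∈ P.K i) : x ∉ P.S i :=
  fun h => (Finset.disjoint_left.mp (P.dis i)) hx h

theorem notK {i : ι} {x : V} (hx : x ∈ P.S i) : x ∉ P.K i :=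
  fun h => (Finset.disjoint_left.mp (P.dis i)) h hx

/-- clique and stable set with different indices meet -/
theorem meet {i j : ι} (h : i ≠ j) : ∃ x, x ∈ P.K i ∧ x ∈ P.S j := by
  have h1 := P.one i j h
  obtain ⟨x, hx⟩ := Finset.card_eq_one.mp h1
  refine ⟨x, ?_⟩
  have : x ∈ P.K i ∩ P.S j := by rw [hx]; simp
  exact Finset.mem_inter.mp this

/-- clique and stable set meet in at most one vertex -/
theorem eqv {i j : ι} {x y : V} (hx : x ∈ P.K i) (hx' : x ∈ P.S j) (hy : y ∈ P.K i)
    (hy' : y ∈ P.S j) : x = y := by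
  by_cases h : i = j
  · subst h
    exact absurd hx' (P.notS hx)
  · have h1 := P.one i j h
    obtain ⟨z, hz⟩ := Finset.card_eq_one.mp h1
    have h2 : x ∈ P.K i ∩ P.S j := Finset.mem_inter.mpr ⟨hx, hx'⟩
    have h3 : y ∈ P.K i ∩ P.S j := Finset.mem_inter.mpr ⟨hy, hy'⟩
    rw [hz] at h2 h3
    rw [Finset.mem_singleton.mp h2, Finset.mem_singleton.mp h3]

/-- for `u ≠ v` some clique through `u` has its mate through `v` -/
theorem exKS {u v : V} (h : u ≠ v) : ∃ i, u ∈ P.K i ∧ v ∈ P.S i := by
  obtain ⟨i, hi, -⟩ := P.uniq u v h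
  exact ⟨i, hi⟩

/-- mates of two cliques with a common vertex are disjoint -/
theorem eqi {i j : ι} {u v : V} (h1 : u ∈ P.K i) (h2 : v ∈ P.S i) (h3 : u ∈ P.K j)
    (h4 : v ∈ P.S j) : i = j := by
  have hne : u ≠ v := P.ne_of_KS h1 h2
  exact (P.uniq u v hne).unique ⟨h1, h2⟩ ⟨h3, h4⟩

/-- Counting tool 1. -/
theorem sumK (B : Finset V) : ∑ i, (P.K i ∩ B).card = k * B.card := by
  have h1 : ∀ i, (P.K i ∩ B).card = ∑ x ∈ B, (if x ∈ P.K i then 1 else 0) := by
    intro i
    rw [Finset.sum_ite_mem, Finset.inter_comm, ← Finset.card_eq_sum_ones]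
  rw [Finset.sum_congr rfl (fun i _ => h1 i), Finset.sum_comm]
  have h2 : ∀ x ∈ B, (∑ i, (if x ∈ P.K i then 1 else 0)) = k := by
    intro x _
    have h3 := P.degK x
    rw [Finset.card_filter] at h3
    exact h3
  rw [Finset.sum_congr rfl h2, Finset.sum_const, smul_eq_mul, mul_comm]

/-- Counting tool 2. -/
theorem sumKS (B : Finset V) (v : V) :
    ∑ i ∈ univ.filter (fun i => v ∈ P.S i), (P.K i ∩ B).card = (B.erase v).card := by
  have h1 : ∀ i, (P.K i ∩ B).card = ∑ x ∈ B, (if x ∈ P.K i then 1 else 0) := by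
    intro i
    rw [Finset.sum_ite_mem, Finset.inter_comm, ← Finset.card_eq_sum_ones]
  rw [Finset.sum_congr rfl (fun i _ => h1 i), Finset.sum_comm]
  have h2 : ∀ x ∈ B, (∑ i ∈ univ.filter (fun i => v ∈ P.S i), (if x ∈ P.K i then 1 else 0))
      = if x ≠ v then 1 else 0 := by
    intro x _
    rw [← Finset.card_filter, Finset.filter_filter]
    by_cases hx : x = v
    · subst hx
      rw [if_neg (by simp)]
      rw [Finset.card_eq_zero, Finset.filter_eq_empty_iff]
      rintro i - ⟨h3, h4⟩
      exact P.notS h4 h3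
    · rw [if_pos hx]
      obtain ⟨i, ⟨hi1, hi2⟩, hu⟩ := P.uniq x v hx
      rw [Finset.card_eq_one]
      refine ⟨i, ?_⟩
      ext j
      simp only [Finset.mem_filter, Finset.mem_univ, true_and, Finset.mem_singleton]
      constructor
      · rintro ⟨h3, h4⟩
        exact hu j ⟨h4, h3⟩
      · rintro rfl
        exact ⟨hi2, hi1⟩
  rw [Finset.sum_congr rfl h2, ← Finset.card_filter]
  congr 1
  ext x
  simp [Finset.mem_erase, and_comm]

/-- Reconstruction of a vertex set from the numbers `|K i ∩ B| = 1 + e i`. -/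
theorem recon (B : Finset V) (e : ι → ℤ) (he : ∀ i, ((P.K i ∩ B).card : ℤ) = 1 + e i) :
    (k : ℤ) * ((B.card : ℤ) - a) = 1 + ∑ i, e i ∧
    ∀ v, (if v ∈ B then (1 : ℤ) else 0) =
      (B.card : ℤ) - a - ∑ i ∈ univ.filter (fun i => v ∈ P.S i), e i := by
  constructor
  · have h1 := P.sumK B
    have h2 : ∑ i, ((P.K i ∩ B).card : ℤ) = (k : ℤ) * B.card := by exact_mod_cast h1
    rw [Finset.sum_congr rfl (fun i _ => he i), Finset.sum_add_distrib, Finset.sum_const,
      Finset.card_univ, P.cardI] at h2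
    push_cast at h2
    simp only [nsmul_eq_mul, mul_one] at h2
    push_cast at h2
    linarith
  · intro v
    have h1 := P.sumKS B v
    have h2 : ∑ i ∈ univ.filter (fun i => v ∈ P.S i), ((P.K i ∩ B).card : ℤ)
        = ((B.erase v).card : ℤ) := by exact_mod_cast h1
    rw [Finset.sum_congr rfl (fun i _ => he i), Finset.sum_add_distrib, Finset.sum_const,
      P.degS v] at h2
    simp only [nsmul_eq_mul, mul_one] at h2
    by_cases hv : v ∈ B
    · rw [if_pos hv]
      have h3 := Finset.card_erase_add_one hv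
      have h4 : ((B.erase v).card : ℤ) + 1 = B.card := by exact_mod_cast h3
      linarith
    · rw [if_neg hv]
      rw [Finset.erase_eq_of_notMem hv] at h2
      linarith

end PSys

end Pool.Agent.H79S
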