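import Mathlib
import Pool.Agent.Lib.H79S.Defs

/-!
# H79S: local structure in case A

`q1 = {w, a, b}` has exactly one critical edge `w b`; `q2 = {w, b, c}` the second clique on `w b`,
`q3 = {w, v1, v2}` the third clique at `w`; `ra = {a, p, r}` the clique at `a` whose mate contains
`w`, `ka` the third clique at `a`; `rb`, `rc` the two other cliques at `r`.
Writing `A = S ra`, `B = S q1`, `C = S ka` (they partition `V - a`), `B2 = S rb`, `C2 = S rc`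
(`A, B2, C2` partition `V - r`).
-/

set_option autoImplicit false

namespace Pool.Agent.H79S

open Finset

variable {V ι : Type} [Fintype V] [DecidableEq V] [Fintype ι] [DecidableEq ι] {al : ℕ}

/-- Local data in case A. -/
structure LocA (P : PSys V ι al 3) where
  (w a b c v1 v2 p r : V)
  (q1 q2 q3 ra ka rb rc : ι)
  hwa : w ≠ a
  hwb : w ≠ b
  hab : a ≠ b
  hwc : w ≠ c
  hbc : b ≠ c
  hwv1 : w ≠ v1
  hwv2 : w ≠ v2
  hv12 : v1 ≠ v2
  hap : a ≠ p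
  har : a ≠ r
  hpr : p ≠ r
  hbr : b ≠ r
  hq1 : P.K q1 = {w, a, b}
  hq2 : P.K q2 = {w, b, c}
  hq3 : P.K q3 = {w, v1, v2}
  hra : P.K ra = {a, p, r}
  aka : a ∈ P.K ka
  rrb : r ∈ P.K rb
  rrc : r ∈ P.K rc
  n12 : q1 ≠ q2
  n13 : q1 ≠ q3
  n23 : q2 ≠ q3
  nra1 : ra ≠ q1
  nrak : ra ≠ ka
  n1k : q1 ≠ ka
  nrab : ra ≠ rb
  nrac : ra ≠ rc
  nbc : rb ≠ rc
  atw : ∀ m, w ∈ P.K m → m = q1 ∨ m = q2 ∨ m = q3
  ata : ∀ m, a ∈ P.K m → m = q1 ∨ m = ra ∨ m = ka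
  atr : ∀ m, r ∈ P.K m → m = ra ∨ m = rb ∨ m = rc
  wA : w ∈ P.S ra
  bC : b ∈ P.S ka
  cB : c ∈ P.S q1
  v1B : v1 ∈ P.S q1
  v2C : v2 ∈ P.S ka
  pB : p ∈ P.S q1
  rC : r ∈ P.S ka
  aB2 : a ∈ P.S rb
  pC2 : p ∈ P.S rc
  bC2 : b ∈ P.S rc
  cB2 : c ∈ P.S rb
  aq2 : a ∈ P.S q2
  v2q2 : v2 ∈ P.S q2
  a3 : a ∉ P.K q3
  b3 : b ∉ P.K q3

/-- counting the vertices of a 3-set in a set -/
theorem count3 {x y z : V} (hxy : x ≠ y) (hxz : x ≠ z) (hyz : y ≠ z) (B : Finset V) :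
    ((({x, y, z} : Finset V) ∩ B).card : ℤ) =
      (if x ∈ B then 1 else 0) + (if y ∈ B then 1 else 0) + (if z ∈ B then 1 else 0) := by
  have h1 : (({x, y, z} : Finset V) ∩ B) = ({x, y, z} : Finset V).filter (fun t => t ∈ B) := by
    ext t; simp
  rw [h1, Finset.card_filter, Finset.sum_insert (by simp [hxy, hxz]),
    Finset.sum_insert (by simp [hyz]), Finset.sum_singleton]
  push_cast
  ring

/-- three cliques at each vertex -/
theorem PSys.at3 (P : PSys V ι al 3) (t : V) : ∃ i j l, i ≠ j ∧ i ≠ l ∧ j ≠ l ∧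
    t ∈ P.K i ∧ t ∈ P.K j ∧ t ∈ P.K l ∧ ∀ m, t ∈ P.K m → m = i ∨ m = j ∨ m = l := by
  have h := P.degK t
  rw [Finset.card_eq_three] at h
  obtain ⟨i, j, l, h1, h2, h3, h4⟩ := h
  have h5 : ∀ m, t ∈ P.K m ↔ m = i ∨ m = j ∨ m = l := by
    intro m
    have : m ∈ univ.filter (fun i => t ∈ P.K i) ↔ m ∈ ({i, j, l} : Finset ι) := by rw [h4]
    simpa using this
  exact ⟨i, j, l, h1, h2, h3, (h5 i).mpr (Or.inl rfl), (h5 j).mpr (Or.inr (Or.inl rfl)),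
    (h5 l).mpr (Or.inr (Or.inr rfl)), fun m hm => (h5 m).mp hm⟩

/-- the two other cliques at a vertex of a given clique -/
theorem PSys.at3' (P : PSys V ι al 3) {t : V} {i : ι} (ht : t ∈ P.K i) : ∃ j l, i ≠ j ∧ i ≠ l ∧
    j ≠ l ∧ t ∈ P.K j ∧ t ∈ P.K l ∧ ∀ m, t ∈ P.K m → m = i ∨ m = j ∨ m = l := by
  obtain ⟨i', j', l', h1, h2, h3, h4, h5, h6, h7⟩ := P.at3 t
  rcases h7 i ht with rfl | rfl | rfl
  · exact ⟨j', l', h1, h2, h3, h5, h6, h7⟩
  · refine ⟨i', l', h1.symm, h3, h2, h4, h6, fun m hm => ?_⟩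
    rcases h7 m hm with h | h | h <;> tauto
  · refine ⟨i', j', h2.symm, h3.symm, h1, h4, h5, fun m hm => ?_⟩
    rcases h7 m hm with h | h | h <;> tauto

/-- the third clique when two are known -/
theorem PSys.at3'' (P : PSys V ι al 3) {t : V} {i j : ι} (hij : i ≠ j) (ht : t ∈ P.K i)
    (htj : t ∈ P.K j) : ∃ l, i ≠ l ∧ j ≠ l ∧ t ∈ P.K l ∧
      ∀ m, t ∈ P.K m → m = i ∨ m = j ∨ m = l := by
  obtain ⟨j', l', h1, h2, h3, h4, h5, h6⟩ := P.at3' ht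
  rcases h6 j htj with rfl | rfl | rfl
  · exact absurd rfl hij
  · exact ⟨l', h2, h3, h5, h6⟩
  · refine ⟨j', h1, h3.symm, h4, fun m hm => ?_⟩
    rcases h6 m hm with h | h | h <;> tauto

/-- a clique containing two given vertices -/
theorem PSys.third (P : PSys V ι al 3) {i : ι} {x y : V} (hxy : x ≠ y) (hx : x ∈ P.K i)
    (hy : y ∈ P.K i) : ∃ z, x ≠ z ∧ y ≠ z ∧ P.K i = {x, y, z} := by
  have h := P.cardK i
  have h1 : ((P.K i).erase x).erase y = ((P.K i).erase x).erase y := rfl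
  have h2 : (((P.K i).erase x).erase y).card = 1 := by
    rw [Finset.card_erase_of_mem (by simp [hy, hxy.symm]), Finset.card_erase_of_mem hx, h]
  obtain ⟨z, hz⟩ := Finset.card_eq_one.mp h2
  have h3 : z ∈ ((P.K i).erase x).erase y := by rw [hz]; simp
  simp only [Finset.mem_erase] at h3
  refine ⟨z, fun e => h3.2.1 e.symm, fun e => h3.1 e.symm, ?_⟩
  have h4 := Finset.insert_erase (show y ∈ (P.K i).erase x by simp [hy, hxy.symm])
  rw [hz] at h4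
  have h5 := Finset.insert_erase hx
  rw [← h4] at h5
  exact h5.symm

/-- a clique containing a given vertex -/
theorem PSys.two (P : PSys V ι al 3) {i : ι} {x : V} (hx : x ∈ P.K i) :
    ∃ y z, x ≠ y ∧ x ≠ z ∧ y ≠ z ∧ P.K i = {x, y, z} := by
  have h2 : ((P.K i).erase x).card = 2 := by
    rw [Finset.card_erase_of_mem hx, P.cardK i]
  obtain ⟨y, z, hyz, hz⟩ := Finset.card_eq_two.mp h2
  have h3 : y ∈ (P.K i).erase x := by rw [hz]; simp
  have h4 : z ∈ (P.K i).erase x := by rw [hz]; simp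
  refine ⟨y, z, fun e => (Finset.mem_erase.mp h3).1 e.symm,
    fun e => (Finset.mem_erase.mp h4).1 e.symm, hyz, ?_⟩
  have h5 := Finset.insert_erase hx
  rw [hz] at h5
  exact h5.symm

end Pool.Agent.H79S
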