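import Mathlib
import Pool.Agent.Lib.H79S.Loc

/-!
# H79S, chunk CB: case B, no clique has exactly one critical edge

Take `q = {w, a, b}` with `w b` critical; by `hno` a second pair is critical; so (renaming) there are
`q = {u1, u2, u3}`, `qx ≠ q` containing `u1, u2`, `qy ≠ q` containing `u2, u3`.
`K qx = {u1, u2, x}`, `K qy = {u2, u3, y}`, `x ≠ u3`, `y ≠ u1` (otherwise same vertex set:
`K qx = K q` gives `qx = q` since `K q ∩ S q = ∅` and `one`), `qx ≠ qy` (otherwise `K qx` has the 3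
elements `u1 u2 u3`), the cliques at `u2` are exactly `q, qx, qy`; `x ≠ y`: otherwise `x` and `u2`:
`u1, u2, u3, x` pairwise in a common clique... use: some clique at `x` ... simplest: `x ≠ y` because
otherwise `P.exKS` (`u2 ≠ x`) gives a clique through `u2` (so `q`, `qx` or `qy`), with mate through
`x`; it must be `q`, so `x ∈ S q`; and `exKS` (`x ≠ u2`) ... or use that `e`: `hno` is not needed if
`x = y` is excluded by: `S qx ∩ K q = {u3}`, (`meet`), `u3 ∈ K qy`, `x ∈ K qy` fine, `S q ∩ K qx = {x}`.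
K4: pick `v ∉ {u1,u2,u3,x}` (card V = 3al+1 > 4), the three cliques at `v` have mates partitioning
`V - v`, so two of the four are in the same `S`, and they are in a common `K`: contradiction `eqv`.
`hno` for `qx` with the critical pair `u1 u2`: `u1 x` or `u2 x` is in a second clique; `u2 x`: only `q`,
`qx`, `qy`, excluded; so `u1, x ∈ K rx`, `rx ≠ qx`; `x ∉ K q` so `rx ≠ q`: `K rx = {u1, x, z}`.
The same: `K ry = {u3, y, z'}`.
* every `S t ∋ u2` with `t ≠ rx` contains `z` (`u1, x ∉ S t` by `eqv` in `K qx`); with `t ≠ ry` contains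
  `z'`.  `rx ≠ ry`: if equal, `{u1,x,z} = {u3,y,z'}`: `u3 ∈ {u1,x,z}` so `z = u3`; `y ∈ {u1, x, z}`:
  `y ≠ u1, x, u3`.
* `u2` is in exactly `al ≥ 3` sets `S j`: take `j ≠ rx, ry`.  `j ≠ q` (`u2 ∈ K q`); `v := K j ∩ S q`.
  `T = (S j).erase u2 ∪ {u1, u3, v}`.
-/

set_option autoImplicit false

namespace Pool.Agent.H79S

open Finset

variable {V ι : Type} [Fintype V] [DecidableEq V] [Fintype ι] [DecidableEq ι] {al : ℕ}

theorem cb_Kne (P : PSys V ι al 3) {i j : ι} (h : i ≠ j) : P.K i ≠ P.K j := by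
  intro e
  obtain ⟨x, hx1, hx2⟩ := P.meet h
  rw [e] at hx1
  exact P.notS hx1 hx2

/-- no four vertices are pairwise in common cliques -/
theorem cb_noK4 (P : PSys V ι al 3) (hal : 3 ≤ al) {z1 z2 z3 z4 : V}
    (s12 : ∀ i, z1 ∈ P.S i → z2 ∈ P.S i → False)
    (s13 : ∀ i, z1 ∈ P.S i → z3 ∈ P.S i → False)
    (s14 : ∀ i, z1 ∈ P.S i → z4 ∈ P.S i → False)
    (s23 : ∀ i, z2 ∈ P.S i → z3 ∈ P.S i → False)
    (s24 : ∀ i, z2 ∈ P.S i → z4 ∈ P.S i → False)
    (s34 : ∀ i, z3 ∈ P.S i → z4 ∈ P.S i → False) : False := by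
  have hc : (({z1, z2, z3, z4} : Finset V)).card < Fintype.card V := by
    rw [P.cardV]
    have h1 : (({z1, z2, z3, z4} : Finset V)).card ≤ 4 := Finset.card_le_four
    omega
  obtain ⟨v, hv⟩ : ∃ v, v ∉ ({z1, z2, z3, z4} : Finset V) := by
    by_contra hcon
    push Not at hcon
    have h2 : (Finset.univ : Finset V) ⊆ ({z1, z2, z3, z4} : Finset V) := fun v _ => hcon v
    have h3 := Finset.card_le_card h2
    rw [Finset.card_univ] at h3
    omega
  simp only [Finset.mem_insert, Finset.mem_singleton, not_or] at hv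
  obtain ⟨hv1, hv2, hv3, hv4⟩ := hv
  obtain ⟨i, j, l, -, -, -, -, -, -, hall⟩ := P.at3 v
  obtain ⟨m1, hm1, hz1⟩ := P.exKS hv1
  obtain ⟨m2, hm2, hz2⟩ := P.exKS hv2
  obtain ⟨m3, hm3, hz3⟩ := P.exKS hv3
  obtain ⟨m4, hm4, hz4⟩ := P.exKS hv4
  have n12 : m1 ≠ m2 := fun e => s12 m1 hz1 (e ▸ hz2)
  have n13 : m1 ≠ m3 := fun e => s13 m1 hz1 (e ▸ hz3)
  have n14 : m1 ≠ m4 := fun e => s14 m1 hz1 (e ▸ hz4)
  have n23 : m2 ≠ m3 := fun e => s23 m2 hz2 (e ▸ hz3)
  have n24 : m2 ≠ m4 := fun e => s24 m2 hz2 (e ▸ hz4)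
  have n34 : m3 ≠ m4 := fun e => s34 m3 hz3 (e ▸ hz4)
  have h1 := hall m1 hm1
  have h2 := hall m2 hm2
  have h3 := hall m3 hm3
  have h4 := hall m4 hm4
  have hsub : ({m1, m2, m3, m4} : Finset ι) ⊆ ({i, j, l} : Finset ι) := by
    intro t ht
    simp only [Finset.mem_insert, Finset.mem_singleton] at ht ⊢
    rcases ht with rfl | rfl | rfl | rfl
    · exact h1
    · exact h2
    · exact h3
    · exact h4
  have hcard := Finset.card_le_card hsub
  have hc4 : ({m1, m2, m3, m4} : Finset ι).card = 4 := by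
    rw [Finset.card_insert_of_notMem (by simp [n12, n13, n14]),
      Finset.card_insert_of_notMem (by simp [n23, n24]),
      Finset.card_insert_of_notMem (by simp [n34]), Finset.card_singleton]
  have hc3 : ({i, j, l} : Finset ι).card ≤ 3 := Finset.card_le_three
  omega

theorem cb_core (P : PSys V ι al 3) (hal : 3 ≤ al)
    (hno : ∀ (q : ι) (w a b : V), P.K q = {w, a, b} → w ≠ a → w ≠ b → a ≠ b →
      (∃ m, m ≠ q ∧ w ∈ P.K m ∧ b ∈ P.K m) →
      (∃ m, m ≠ q ∧ w ∈ P.K m ∧ a ∈ P.K m) ∨ (∃ m, m ≠ q ∧ a ∈ P.K m ∧ b ∈ P.K m))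
    {q qx qy : ι} {u1 u2 u3 : V} (h12 : u1 ≠ u2) (h13 : u1 ≠ u3) (h23 : u2 ≠ u3)
    (hq : P.K q = {u1, u2, u3}) (nqx : qx ≠ q) (nqy : qy ≠ q)
    (hx1 : u1 ∈ P.K qx) (hx2 : u2 ∈ P.K qx) (hy2 : u2 ∈ P.K qy) (hy3 : u3 ∈ P.K qy) :
    ∃ T, P.IsST T := by
  have hq1 : u1 ∈ P.K q := by rw [hq]; simp
  have hq2 : u2 ∈ P.K q := by rw [hq]; simp
  have hq3 : u3 ∈ P.K q := by rw [hq]; simp
  obtain ⟨x, hu1x, hu2x, hKx⟩ := P.third h12 hx1 hx2
  obtain ⟨y, hu2y, hu3y, hKy⟩ := P.third h23 hy2 hy3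
  have hxK : x ∈ P.K qx := by rw [hKx]; simp
  have hyK : y ∈ P.K qy := by rw [hKy]; simp
  have hxu3 : x ≠ u3 := by
    rintro rfl
    exact cb_Kne P nqx (by rw [hKx, hq])
  have hyu1 : y ≠ u1 := by
    rintro rfl
    apply cb_Kne P nqy
    rw [hKy, hq]
    ext t
    simp only [Finset.mem_insert, Finset.mem_singleton]
    tauto
  have nxy : qx ≠ qy := by
    rintro rfl
    rw [hKx] at hy3
    simp only [Finset.mem_insert, Finset.mem_singleton] at hy3
    rcases hy3 with h | h | h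
    · exact h13 h.symm
    · exact h23 h.symm
    · exact hxu3 h.symm
  have at2 : ∀ m, u2 ∈ P.K m → m = q ∨ m = qx ∨ m = qy := by
    obtain ⟨l, h1, h2, h3, h4⟩ := P.at3'' nqx.symm hq2 hx2
    rcases h4 qy hy2 with h | h | h
    · exact absurd h nqy
    · exact absurd h.symm nxy
    · rw [h]
      exact h4
  have hxy : x ≠ y := by
    rintro rfl
    exact cb_noK4 P hal (z1 := u1) (z2 := u2) (z3 := u3) (z4 := x)
      (fun i h h' => h12 (P.eqv hq1 h hq2 h'))
      (fun i h h' => h13 (P.eqv hq1 h hq3 h'))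
      (fun i h h' => hu1x (P.eqv hx1 h hxK h'))
      (fun i h h' => h23 (P.eqv hq2 h hq3 h'))
      (fun i h h' => hu2x (P.eqv hx2 h hxK h'))
      (fun i h h' => hu3y (P.eqv hy3 h hyK h'))
  obtain ⟨rx, nrx, hrx1, hrxx⟩ : ∃ m, m ≠ qx ∧ u1 ∈ P.K m ∧ x ∈ P.K m := by
    have hKx' : P.K qx = {u1, x, u2} := by
      rw [hKx]; ext t; simp only [Finset.mem_insert, Finset.mem_singleton]; tauto
    rcases hno qx u1 x u2 hKx' hu1x h12 hu2x.symm ⟨q, nqx.symm, hq1, hq2⟩ with h | h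
    · exact h
    · exfalso
      obtain ⟨m, hm1, hm2, hm3⟩ := h
      rcases at2 m hm3 with h | h | h
      · rw [h, hq] at hm2
        simp only [Finset.mem_insert, Finset.mem_singleton] at hm2
        rcases hm2 with h | h | h
        · exact hu1x h.symm
        · exact hu2x h.symm
        · exact hxu3 h
      · exact hm1 h
      · rw [h, hKy] at hm2
        simp only [Finset.mem_insert, Finset.mem_singleton] at hm2
        rcases hm2 with h | h | h
        · exact hu2x h.symm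
        · exact hxu3 h
        · exact hxy h
  obtain ⟨ry, nry, hry3, hryy⟩ : ∃ m, m ≠ qy ∧ u3 ∈ P.K m ∧ y ∈ P.K m := by
    have hKy' : P.K qy = {u3, y, u2} := by
      rw [hKy]; ext t; simp only [Finset.mem_insert, Finset.mem_singleton]; tauto
    rcases hno qy u3 y u2 hKy' hu3y h23.symm hu2y.symm ⟨q, nqy.symm, hq3, hq2⟩ with h | h
    · exact h
    · exfalso
      obtain ⟨m, hm1, hm2, hm3⟩ := h
      rcases at2 m hm3 with h | h | h
      · rw [h, hq] at hm2
        simp only [Finset.mem_insert, Finset.mem_singleton] at hm2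
        rcases hm2 with h | h | h
        · exact hyu1 h
        · exact hu2y h.symm
        · exact hu3y h.symm
      · rw [h, hKx] at hm2
        simp only [Finset.mem_insert, Finset.mem_singleton] at hm2
        rcases hm2 with h | h | h
        · exact hyu1 h
        · exact hu2y h.symm
        · exact hxy h.symm
      · exact hm1 h
  obtain ⟨z, hz1, hz2, hKrx⟩ := P.third hu1x hrx1 hrxx
  obtain ⟨z', hz1', hz2', hKry⟩ := P.third hu3y hry3 hryy
  have nrr : rx ≠ ry := by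
    rintro rfl
    rw [hKrx] at hry3 hryy
    simp only [Finset.mem_insert, Finset.mem_singleton] at hry3 hryy
    have e1 : u3 = z := by
      rcases hry3 with h | h | h
      · exact absurd h.symm h13
      · exact absurd h.symm hxu3
      · exact h
    rcases hryy with h | h | h
    · exact hyu1 h
    · exact hxy h.symm
    · exact hu3y (by rw [h]; exact e1)
  have hzu2 : z ≠ u2 := by
    rintro rfl
    apply cb_Kne P nrx
    rw [hKrx, hKx]
    ext t
    simp only [Finset.mem_insert, Finset.mem_singleton]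
    tauto
  have hzu2' : z' ≠ u2 := by
    rintro rfl
    apply cb_Kne P nry
    rw [hKry, hKy]
    ext t
    simp only [Finset.mem_insert, Finset.mem_singleton]
    tauto
  have hSz : ∀ t, u2 ∈ P.S t → t ≠ rx → z ∈ P.S t := by
    intro t ht hne
    obtain ⟨s, hs1, hs2⟩ := P.meet (i := rx) (j := t) hne.symm
    rw [hKrx] at hs1
    simp only [Finset.mem_insert, Finset.mem_singleton] at hs1
    rcases hs1 with h | h | h
    · exact absurd (P.eqv hq1 (h ▸ hs2) hq2 ht) h12
    · exact absurd (P.eqv hx2 ht hxK (h ▸ hs2)) hu2x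
    · exact h ▸ hs2
  have hSz' : ∀ t, u2 ∈ P.S t → t ≠ ry → z' ∈ P.S t := by
    intro t ht hne
    obtain ⟨s, hs1, hs2⟩ := P.meet (i := ry) (j := t) hne.symm
    rw [hKry] at hs1
    simp only [Finset.mem_insert, Finset.mem_singleton] at hs1
    rcases hs1 with h | h | h
    · exact absurd (P.eqv hq2 ht hq3 (h ▸ hs2)) h23
    · exact absurd (P.eqv hy2 ht hyK (h ▸ hs2)) hu2y
    · exact h ▸ hs2
  obtain ⟨j, hj2, hjrx, hjry⟩ : ∃ j, u2 ∈ P.S j ∧ j ≠ rx ∧ j ≠ ry := by
    by_contra hcon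
    push Not at hcon
    have hsub : univ.filter (fun i => u2 ∈ P.S i) ⊆ ({rx, ry} : Finset ι) := by
      intro t ht
      simp only [Finset.mem_filter, Finset.mem_univ, true_and] at ht
      simp only [Finset.mem_insert, Finset.mem_singleton]
      by_cases h : t = rx
      · exact Or.inl h
      · exact Or.inr (hcon t ht h)
    have h1 := Finset.card_le_card hsub
    rw [P.degS u2] at h1
    have h2 : ({rx, ry} : Finset ι).card ≤ 2 := Finset.card_le_two
    omega
  have hjq : j ≠ q := by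
    rintro rfl
    exact P.notS hq2 hj2
  obtain ⟨v, hv1, hv2⟩ := P.meet hjq
  have hu1S : u1 ∉ P.S j := fun h => h12 (P.eqv hq1 h hq2 hj2)
  have hu3S : u3 ∉ P.S j := fun h => h23 (P.eqv hq2 hj2 hq3 h)
  have hvS : v ∉ P.S j := P.notS hv1
  have hvu1 : u1 ≠ v := P.ne_of_KS hq1 hv2
  have hvu3 : u3 ≠ v := P.ne_of_KS hq3 hv2
  refine ⟨insert u1 (insert u3 (insert v ((P.S j).erase u2))), ?_, ?_, ?_⟩
  · rw [Finset.card_insert_of_notMem, Finset.card_insert_of_notMem,
      Finset.card_insert_of_notMem, Finset.card_erase_of_mem hj2, P.cardS j]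
    · omega
    · intro h
      exact hvS (Finset.mem_of_mem_erase h)
    · simp only [Finset.mem_insert, Finset.mem_erase, not_or, not_and]
      exact ⟨hvu3, fun _ => hu3S⟩
    · simp only [Finset.mem_insert, Finset.mem_erase, not_or, not_and]
      exact ⟨h13, hvu1, fun _ => hu1S⟩
  · intro i
    rw [Finset.not_disjoint_iff]
    by_cases hij : i = j
    · rw [hij]
      exact ⟨v, by simp, hv1⟩
    · obtain ⟨s, hs1, hs2⟩ := P.meet hij
      by_cases hs : s = u2
      · rw [hs] at hs1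
        rcases at2 i hs1 with h | h | h
        · rw [h]; exact ⟨u1, by simp, hq1⟩
        · rw [h]; exact ⟨u1, by simp, hx1⟩
        · rw [h]; exact ⟨u3, by simp, hy3⟩
      · exact ⟨s, by simp [hs, hs2], hs1⟩
  · intro t
    rw [Finset.not_disjoint_iff]
    by_cases htq : t = q
    · rw [htq]; exact ⟨v, by simp, hv2⟩
    · obtain ⟨s, hs1, hs2⟩ := P.meet (i := q) (j := t) (fun e => htq e.symm)
      rw [hq] at hs1
      simp only [Finset.mem_insert, Finset.mem_singleton] at hs1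
      rcases hs1 with h | h | h
      · exact ⟨u1, by simp, h ▸ hs2⟩
      · have ht2 : u2 ∈ P.S t := h ▸ hs2
        by_cases htr : t = rx
        · have h1 : z' ∈ P.S t := hSz' t ht2 (by rw [htr]; exact nrr)
          have h2 : z' ∈ P.S j := hSz' j hj2 hjry
          exact ⟨z', by simp [hzu2', h2], h1⟩
        · have h1 : z ∈ P.S t := hSz t ht2 htr
          have h2 : z ∈ P.S j := hSz j hj2 hjrx
          exact ⟨z, by simp [hzu2, h2], h1⟩
      · exact ⟨u3, by simp, h ▸ hs2⟩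

theorem caseB (P : PSys V ι al 3) (hal : 3 ≤ al)
    (hex : ∃ i j u v, i ≠ j ∧ u ≠ v ∧ u ∈ P.K i ∧ v ∈ P.K i ∧ u ∈ P.K j ∧ v ∈ P.K j)
    (hno : ∀ (q : ι) (w a b : V), P.K q = {w, a, b} → w ≠ a → w ≠ b → a ≠ b →
      (∃ m, m ≠ q ∧ w ∈ P.K m ∧ b ∈ P.K m) →
      (∃ m, m ≠ q ∧ w ∈ P.K m ∧ a ∈ P.K m) ∨ (∃ m, m ≠ q ∧ a ∈ P.K m ∧ b ∈ P.K m)) :
    ∃ T, P.IsST T := by
  obtain ⟨i, j, u, v, hij, huv, hui, hvi, huj, hvj⟩ := hex
  obtain ⟨c, huc, hvc, hKi⟩ := P.third huv hui hvi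
  have hK' : P.K i = {u, c, v} := by
    rw [hKi]; ext t; simp only [Finset.mem_insert, Finset.mem_singleton]; tauto
  rcases hno i u c v hK' huc huv hvc.symm ⟨j, hij.symm, huj, hvj⟩ with h | h
  · obtain ⟨m, hm1, hm2, hm3⟩ := h
    -- the pairs `v u` and `u c`
    have hK2 : P.K i = {v, u, c} := by
      rw [hKi]; ext t; simp only [Finset.mem_insert, Finset.mem_singleton]; tauto
    exact cb_core P hal hno (q := i) (qx := j) (qy := m) (u1 := v) (u2 := u) (u3 := c)
      huv.symm hvc huc hK2 hij.symm hm1 hvj huj hm2 hm3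
  · obtain ⟨m, hm1, hm2, hm3⟩ := h
    exact cb_core P hal hno (q := i) (qx := j) (qy := m) (u1 := u) (u2 := v) (u3 := c)
      huv huc hvc hKi hij.symm hm1 huj hvj hm3 hm2

end Pool.Agent.H79S
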