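import Mathlib
import Pool.Agent.Lib.H79S.Loc

/-!
# H79S, chunk LE: the local data of case A exist

`q1 = {w, a, b}`, `q2 ∋ w, b` another clique, `w a` and `a b` are in no other clique than `q1`.
* `q2 = {w, b, c}` (`PSys.third`), `a ∉ K q2` (else `nwa` gives `q2 = q1`), so `c ≠ a`.
* `q3` the third clique at `w` (`PSys.at3''`); `a ∉ K q3` by `nwa`; `b ∉ K q3`: `P.exKS` for
  `u = b`... simplest: if `b ∈ K q3` then `w` and `b` are in the same three cliques `q1 q2 q3`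
  (degree 3); take (by `exKS`, `w ≠ b`) a clique through `w` with mate through `b`: it is one of
  `q1 q2 q3` and contains `b`, contradiction.
* `S q1 ∩ K q2 = {c}` (`meet`), `S q2 ∩ K q1 = {a}`; `v1 := K q3 ∩ S q1` (`meet`), `v1 ≠ w`,
  `v2` the third vertex of `K q3` (`third`); `K q3` meets `S q2` in `v1` or `v2`, not in `w`; not in
  `v1` by `eqi` at `w`; so `v2 ∈ S q2`.
* `ra` := the clique at `a` with `w ∈ S ra` (`exKS`), `ra ≠ q1`; `ka` the third clique at `a`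
  (`at3''`).  `ra = {a, p, r}` with `p := K ra ∩ S q1`, and `r` := `K ra ∩ S ka`; `p ≠ r` by `eqi` at
  `a`; `p, r ≠ a`.
* for every `v ≠ a`: `v ∈ S ra ∨ v ∈ S q1 ∨ v ∈ S ka` (`exKS` + completeness at `a`), in exactly one
  (`eqi`).  `b ∉ S q1`, `b ∉ S ra` (`eqv` in `K q1` with `w`), so `b ∈ S ka`.  `v2 ∉ S ra`
  (`eqv` with `w` in `K q3`), `v2 ∉ S q1` (`eqv` with `v1`), so `v2 ∈ S ka`.
* `b ≠ r` since `a b` is only in `q1`.
* `rb` := the clique at `r` with `a ∈ S rb` (`exKS`), `ra ≠ rb`, `rc` the third clique at `r`.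
  For every `v ≠ r`: `v` is in exactly one of `S ra, S rb, S rc`.
  `p ∉ S ra`, `p ∉ S rb` (`eqv` with `a` in `K ra`), so `p ∈ S rc`; `b ∉ S ra`, `b ∉ S rb` (`eqv`
  with `a` in `K q1`) so `b ∈ S rc`; `c ∉ S ra` (`eqv` with `w` in `K q2`), `c ∉ S rc` (`eqv` with
  `b` in `K q2`), `c ≠ r` as `c ∈ S q1`, `r ∈ S ka` (`eqi` at `a`), so `c ∈ S rb`.
-/

set_option autoImplicit false

namespace Pool.Agent.H79S

open Finset

variable {V ι : Type} [Fintype V] [DecidableEq V] [Fintype ι] [DecidableEq ι] {al : ℕ}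

theorem LocA.exists (P : PSys V ι al 3) (w a b : V) (q1 q2 : ι) (hwa : w ≠ a) (hwb : w ≠ b)
    (hab : a ≠ b) (hq1 : P.K q1 = {w, a, b}) (n12 : q1 ≠ q2) (hw2 : w ∈ P.K q2)
    (hb2 : b ∈ P.K q2) (nwa : ∀ m, w ∈ P.K m → a ∈ P.K m → m = q1)
    (nab : ∀ m, a ∈ P.K m → b ∈ P.K m → m = q1) : Nonempty (LocA P) := by
  have hwq1 : w ∈ P.K q1 := by rw [hq1]; simp
  have haq1 : a ∈ P.K q1 := by rw [hq1]; simp
  have hbq1 : b ∈ P.K q1 := by rw [hq1]; simp
  -- q2
  obtain ⟨c, hwc, hbc, hq2⟩ := P.third hwb hw2 hb2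
  have hcq2 : c ∈ P.K q2 := by rw [hq2]; simp
  -- q3
  obtain ⟨q3, n13, n23, hw3, atw⟩ := P.at3'' n12 hwq1 hw2
  have a3 : a ∉ P.K q3 := fun h => n13 (nwa q3 hw3 h).symm
  have b3 : b ∉ P.K q3 := by
    intro h
    obtain ⟨i, hi1, hi2⟩ := P.exKS hwb
    rcases atw i hi1 with rfl | rfl | rfl
    · exact P.notS hbq1 hi2
    · exact P.notS hb2 hi2
    · exact P.notS h hi2
  -- c in S q1
  have cB : c ∈ P.S q1 := by
    obtain ⟨x, hx1, hx2⟩ := P.meet n12.symm
    rw [hq2] at hx1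
    simp only [Finset.mem_insert, Finset.mem_singleton] at hx1
    rcases hx1 with rfl | rfl | rfl
    · exact absurd hx2 (P.notS hwq1)
    · exact absurd hx2 (P.notS hbq1)
    · exact hx2
  have aq2 : a ∈ P.S q2 := by
    obtain ⟨x, hx1, hx2⟩ := P.meet n12
    rw [hq1] at hx1
    simp only [Finset.mem_insert, Finset.mem_singleton] at hx1
    rcases hx1 with rfl | rfl | rfl
    · exact absurd hx2 (P.notS hw2)
    · exact hx2
    · exact absurd hx2 (P.notS hb2)
  -- v1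
  obtain ⟨v1, hv1q3, v1B⟩ := P.meet n13.symm
  have hwv1 : w ≠ v1 := fun h => P.notS hwq1 (h ▸ v1B)
  obtain ⟨v2, hwv2, hv12, hq3⟩ := P.third hwv1 hw3 hv1q3
  have hv2q3 : v2 ∈ P.K q3 := by rw [hq3]; simp
  have v2q2 : v2 ∈ P.S q2 := by
    obtain ⟨x, hx1, hx2⟩ := P.meet n23.symm
    rw [hq3] at hx1
    simp only [Finset.mem_insert, Finset.mem_singleton] at hx1
    rcases hx1 with rfl | rfl | rfl
    · exact absurd hx2 (P.notS hw2)
    · exact absurd (P.eqi hwq1 v1B hw2 hx2) n12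
    · exact hx2
  -- ra
  obtain ⟨ra, haRa, wA⟩ := P.exKS hwa.symm
  have nra1 : ra ≠ q1 := by
    rintro rfl
    exact P.notS hwq1 wA
  obtain ⟨ka, n1k, nrak, aka, ata⟩ := P.at3'' nra1.symm haq1 haRa
  obtain ⟨p, hpra, pB⟩ := P.meet nra1
  obtain ⟨r, hrra, rC⟩ := P.meet nrak
  have hap : a ≠ p := fun h => P.notS haq1 (h ▸ pB)
  have har : a ≠ r := fun h => P.notS aka (h ▸ rC)
  have hpr : p ≠ r := by
    intro h
    exact n1k (P.eqi haq1 pB aka (h ▸ rC))
  have hra : P.K ra = {a, p, r} := by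
    obtain ⟨z, h1, h2, h3⟩ := P.third hap haRa hpra
    have h4 : r ∈ P.K ra := hrra
    rw [h3] at h4
    simp only [Finset.mem_insert, Finset.mem_singleton] at h4
    rcases h4 with h4 | h4 | h4
    · exact absurd h4.symm har
    · exact absurd h4.symm hpr
    · rw [h3, h4]
  have exa : ∀ v, v ≠ a → v ∈ P.S q1 ∨ v ∈ P.S ra ∨ v ∈ P.S ka := by
    intro v hv
    obtain ⟨i, hi1, hi2⟩ := P.exKS (u := a) (v := v) (fun e => hv e.symm)
    rcases ata i hi1 with rfl | rfl | rfl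
    · exact Or.inl hi2
    · exact Or.inr (Or.inl hi2)
    · exact Or.inr (Or.inr hi2)
  have bC : b ∈ P.S ka := by
    rcases exa b hab.symm with h | h | h
    · exact absurd h (P.notS hbq1)
    · exact absurd (P.eqv hbq1 h hwq1 wA) hwb.symm
    · exact h
  have v2C : v2 ∈ P.S ka := by
    have hv2a : v2 ≠ a := fun h => a3 (h ▸ hv2q3)
    rcases exa v2 hv2a with h | h | h
    · exact absurd (P.eqv hv2q3 h hv1q3 v1B) hv12.symm
    · exact absurd (P.eqv hv2q3 h hw3 wA) hwv2.symm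
    · exact h
  have hbr : b ≠ r := by
    intro h
    exact nra1 (nab ra haRa (h ▸ hrra))
  -- rb
  obtain ⟨rb, hrrb, aB2⟩ := P.exKS har.symm
  have nrab : ra ≠ rb := by
    rintro rfl
    exact P.notS haRa aB2
  obtain ⟨rc, nrac, nbc, hrrc, atr⟩ := P.at3'' nrab hrra hrrb
  have exr : ∀ v, v ≠ r → v ∈ P.S ra ∨ v ∈ P.S rb ∨ v ∈ P.S rc := by
    intro v hv
    obtain ⟨i, hi1, hi2⟩ := P.exKS (u := r) (v := v) (fun e => hv e.symm)
    rcases atr i hi1 with rfl | rfl | rfl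
    · exact Or.inl hi2
    · exact Or.inr (Or.inl hi2)
    · exact Or.inr (Or.inr hi2)
  have pC2 : p ∈ P.S rc := by
    rcases exr p hpr with h | h | h
    · exact absurd h (P.notS hpra)
    · exact absurd (P.eqv hpra h haRa aB2) hap.symm
    · exact h
  have bC2 : b ∈ P.S rc := by
    rcases exr b hbr with h | h | h
    · exact absurd (P.eqv hbq1 h hwq1 wA) hwb.symm
    · exact absurd (P.eqv hbq1 h haq1 aB2) hab.symm
    · exact h
  have cB2 : c ∈ P.S rb := by
    have hcr : c ≠ r := by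
      intro h
      exact n1k (P.eqi haq1 cB aka (h ▸ rC))
    rcases exr c hcr with h | h | h
    · exact absurd (P.eqv hcq2 h hw2 wA) hwc.symm
    · exact h
    · exact absurd (P.eqv hcq2 h hb2 bC2) hbc.symm
  exact ⟨{ w := w, a := a, b := b, c := c, v1 := v1, v2 := v2, p := p, r := r
           q1 := q1, q2 := q2, q3 := q3, ra := ra, ka := ka, rb := rb, rc := rc
           hwa := hwa, hwb := hwb, hab := hab, hwc := hwc, hbc := hbc, hwv1 := hwv1, hwv2 := hwv2
           hv12 := hv12, hap := hap, har := har, hpr := hpr, hbr := hbr, hq1 := hq1, hq2 := hq2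
           hq3 := hq3, hra := hra, aka := aka, rrb := hrrb, rrc := hrrc, n12 := n12, n13 := n13
           n23 := n23, nra1 := nra1, nrak := nrak, n1k := n1k, nrab := nrab, nrac := nrac
           nbc := nbc, atw := atw, ata := ata, atr := atr, wA := wA, bC := bC, cB := cB, v1B := v1B
           v2C := v2C, pB := pB, rC := rC, aB2 := aB2, pC2 := pC2, bC2 := bC2, cB2 := cB2
           aq2 := aq2, v2q2 := v2q2, a3 := a3, b3 := b3 }⟩

end Pool.Agent.H79S
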