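import Mathlib

/-!
# H79S, chunk M1: the matrix step

`K S^T = J - I` for square 0/1 matrices with constant column sums `r` of `S` and row sums `r` of
`S` implies `S^T K = J - I` and that `K` has constant column sums `s`.

Proof: rational matrices `KM : Matrix ι V ℚ`, `SM : Matrix ι V ℚ`, `KM * SMᵀ = J - 1`.
`(J - 1) * ((1/(n-1)) • J - 1) = 1` with `n = r*s+1`, hence
`KM * (SMᵀ * ((1/(n-1)) • J - 1)) = 1`; as `card ι = card V` also
`(SMᵀ * ((1/(n-1)) • J - 1)) * KM = 1` (`Matrix.mul_eq_one_comm_of_card_eq` or similar).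
The entry `(u, v)` of this equation is `(r/(n-1)) * kdeg v - #{i | u ∈ S i ∧ v ∈ K i} = if u = v then 1 else 0`.
The diagonal gives `kdeg v = s` (as `S i`, `K i` are disjoint), then the off-diagonal gives
`#{i | u ∈ S i ∧ v ∈ K i} = 1`.
-/

set_option autoImplicit false

namespace Pool.Agent.H79S

open Finset

theorem m1_entry {V ι : Type} [Fintype V] [DecidableEq V] [Fintype ι] [DecidableEq ι]
    (r s : ℕ) (hr : 0 < r) (hs : 0 < s) (K S : ι → Finset V)
    (hV : Fintype.card V = r * s + 1) (hI : Fintype.card ι = r * s + 1)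
    (dis : ∀ i, Disjoint (K i) (S i))
    (one : ∀ i j, i ≠ j → (K i ∩ S j).card = 1)
    (degS : ∀ v, (univ.filter (fun i => v ∈ S i)).card = r) (u v : V) :
    (1 / (s : ℚ)) * ((univ.filter (fun i => v ∈ K i)).card : ℚ) -
      ((univ.filter (fun i => u ∈ S i ∧ v ∈ K i)).card : ℚ) = if u = v then 1 else 0 := by
  let KM : Matrix ι V ℚ := fun i v => if v ∈ K i then 1 else 0
  let T : Matrix V ι ℚ := fun v i => if v ∈ S i then 1 else 0
  let J : Matrix ι ι ℚ := fun _ _ => 1
  have hsr : ((r : ℚ) * s) ≠ 0 := by positivity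
  have h1 : KM * T = J - 1 := by
    ext i j
    rw [Matrix.mul_apply, Matrix.sub_apply, Matrix.one_apply]
    have h2 : ∑ v, KM i v * T v j = ((K i ∩ S j).card : ℚ) := by
      rw [Finset.card_eq_sum_ones, Nat.cast_sum]
      have h3 : K i ∩ S j = univ.filter (fun v => v ∈ K i ∧ v ∈ S j) := by
        ext v
        simp
      rw [h3, Finset.sum_filter]
      refine Finset.sum_congr rfl fun v _ => ?_
      change (if v ∈ K i then (1 : ℚ) else 0) * (if v ∈ S j then (1 : ℚ) else 0) = _
      by_cases ha : v ∈ K i <;> by_cases hb : v ∈ S j <;> simp [ha, hb]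
    rw [h2]
    by_cases hij : i = j
    · subst hij
      rw [Finset.disjoint_iff_inter_eq_empty.1 (dis i)]
      simp [J]
    · rw [one i j hij, if_neg hij]
      simp [J]
  have hJJ : J * J = ((r : ℚ) * s + 1) • J := by
    ext i j
    rw [Matrix.mul_apply, Matrix.smul_apply]
    simp only [J, mul_one, Finset.sum_const, Finset.card_univ, hI]
    simp
  have h4 : (J - 1) * ((1 / ((r : ℚ) * s)) • J - 1) = 1 := by
    rw [sub_mul, mul_sub, mul_sub, Matrix.mul_smul, hJJ, Matrix.mul_one, Matrix.one_mul,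
      Matrix.one_mul, smul_smul]
    have h5 : (1 / ((r : ℚ) * s)) * ((r : ℚ) * s + 1) = 1 + 1 / ((r : ℚ) * s) := by
      field_simp
    rw [h5, add_smul, one_smul]
    abel
  have h6 : KM * (T * ((1 / ((r : ℚ) * s)) • J - 1)) = 1 := by
    rw [← Matrix.mul_assoc, h1, h4]
  have h7 : (T * ((1 / ((r : ℚ) * s)) • J - 1)) * KM = 1 := by
    have hc : Fintype.card ι = Fintype.card V := by rw [hV, hI]
    exact (Matrix.mul_eq_one_comm_of_card_eq _ _ _ hc).1 h6
  have h8 := congrFun (congrFun h7 u) v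
  rw [Matrix.mul_apply, Matrix.one_apply] at h8
  rw [← h8]
  have h9 : ∀ i, (T * ((1 / ((r : ℚ) * s)) • J - 1) : Matrix V ι ℚ) u i = 1 / (s : ℚ) - T u i := by
    intro i
    rw [Matrix.mul_sub, Matrix.sub_apply, Matrix.mul_one, Matrix.mul_smul, Matrix.smul_apply,
      Matrix.mul_apply]
    have h10 : ∑ j, T u j * J j i = (r : ℚ) := by
      have h11 : ∑ j, T u j * J j i = ∑ j, if u ∈ S j then (1 : ℚ) else 0 :=
        Finset.sum_congr rfl fun j _ => mul_one _
      rw [h11, ← Finset.sum_filter, Finset.sum_const, degS u]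
      simp
    rw [h10, smul_eq_mul]
    have hr' : (r : ℚ) ≠ 0 := by positivity
    have hs' : (s : ℚ) ≠ 0 := by positivity
    field_simp
  simp only [h9, sub_mul, Finset.sum_sub_distrib]
  congr 1
  · rw [← Finset.mul_sum]
    congr 1
    rw [Finset.card_eq_sum_ones, Nat.cast_sum, Finset.sum_filter]
    refine Finset.sum_congr rfl fun i _ => ?_
    change _ = if v ∈ K i then (1 : ℚ) else 0
    simp
  · rw [Finset.card_eq_sum_ones, Nat.cast_sum, Finset.sum_filter]
    refine Finset.sum_congr rfl fun i _ => ?_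
    change _ = (if u ∈ S i then (1 : ℚ) else 0) * (if v ∈ K i then (1 : ℚ) else 0)
    by_cases ha : u ∈ S i <;> by_cases hb : v ∈ K i <;> simp [ha, hb]

theorem matrix_step {V ι : Type} [Fintype V] [DecidableEq V] [Fintype ι] [DecidableEq ι]
    (r s : ℕ) (hr : 0 < r) (hs : 0 < s) (K S : ι → Finset V)
    (hV : Fintype.card V = r * s + 1) (hI : Fintype.card ι = r * s + 1)
    (dis : ∀ i, Disjoint (K i) (S i))
    (one : ∀ i j, i ≠ j → (K i ∩ S j).card = 1)
    (degS : ∀ v, (univ.filter (fun i => v ∈ S i)).card = r) :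
    (∀ v, (univ.filter (fun i => v ∈ K i)).card = s) ∧
    ∀ u v, u ≠ v → ∃! i, u ∈ K i ∧ v ∈ S i := by
  have hent := m1_entry r s hr hs K S hV hI dis one degS
  have hs' : (s : ℚ) ≠ 0 := by positivity
  have hdeg : ∀ v, (univ.filter (fun i => v ∈ K i)).card = s := by
    intro v
    have h1 := hent v v
    have h2 : (univ.filter (fun i => v ∈ S i ∧ v ∈ K i)) = ∅ := by
      refine Finset.filter_eq_empty_iff.2 fun i _ h => ?_
      exact Finset.disjoint_left.1 (dis i) h.2 h.1
    rw [h2, if_pos rfl, Finset.card_empty, Nat.cast_zero, sub_zero] at h1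
    have h3 : ((univ.filter (fun i => v ∈ K i)).card : ℚ) = s := by
      field_simp at h1
      exact h1
    exact_mod_cast h3
  refine ⟨hdeg, fun u v huv => ?_⟩
  have h1 := hent v u
  rw [hdeg u, if_neg (Ne.symm huv)] at h1
  have h2 : ((univ.filter (fun i => v ∈ S i ∧ u ∈ K i)).card : ℚ) = 1 := by
    have h3 : 1 / (s : ℚ) * s = 1 := by field_simp
    rw [h3] at h1
    linarith
  have h3 : (univ.filter (fun i => v ∈ S i ∧ u ∈ K i)).card = 1 := by exact_mod_cast h2
  obtain ⟨i, hi⟩ := Finset.card_eq_one.1 h3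
  have hmem : ∀ j, j ∈ (univ.filter (fun i => v ∈ S i ∧ u ∈ K i)) ↔ j = i := by
    intro j
    rw [hi, Finset.mem_singleton]
  refine ⟨i, ?_, ?_⟩
  · have := (hmem i).2 rfl
    rw [Finset.mem_filter] at this
    exact ⟨this.2.2, this.2.1⟩
  · rintro j ⟨h4, h5⟩
    exact (hmem j).1 (Finset.mem_filter.2 ⟨Finset.mem_univ _, h5, h4⟩)

end Pool.Agent.H79S
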