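import Mathlib

/-!
# H79S, chunk M2: the family of cliques and stable sets

`G` a graph on `r*s+1` vertices such that every `G - v` splits into `r` cliques of size `s` and into
`s` stable sets of size `r`.

Proof: fix `v0` and a stable set `S0` with `r` elements (any class of the partition of `G - v0`).
`ι := Option (S0 × Fin s)` (`S0` coerced to a type), `S none := S0`, `S (some (v, j)) := Q v j`
(the `j`-th stable set of the partition of `G - v`).  Every vertex lies in exactly `r` of them:
`v ∈ S0` lies in `S0` and in one class for every `v' ∈ S0`, `v' ≠ v`; `v ∉ S0` lies in one class for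
every `v' ∈ S0`.  `card ι = r*s+1`.
For every stable set `T` of size `r` there is a clique of size `s` disjoint from `T`: take `v ∈ T`
and the partition of `G - v` into `r` cliques; `T \ {v}` has `r-1` vertices, each in one clique and
so some clique misses `T`.  Let `K i` be a clique disjoint from `S i`.  Since
`Σ_j |K i ∩ S j| = r * s` (double counting with degrees `r`) and `|K i ∩ S i| = 0`, and
`|K i ∩ S j| ≤ 1`, all the others are `= 1`.
-/

set_option autoImplicit false

namespace Pool.Agent.H79S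

open Finset

/-- a disjoint family containing `w` has exactly one member containing `w` -/
theorem m2_count {V : Type} [DecidableEq V] {s : ℕ} (Q : Fin s → Finset V)
    (hQ : ∀ i j, i ≠ j → Disjoint (Q i) (Q j)) (w : V) (hw : ∃ i, w ∈ Q i) :
    ∑ j, (if w ∈ Q j then 1 else 0) = 1 := by
  obtain ⟨i, hi⟩ := hw
  rw [Finset.sum_eq_single i]
  · rw [if_pos hi]
  · intro j _ hji
    rw [if_neg]
    intro hj
    exact (Finset.disjoint_left.mp (hQ j i hji)) hj hi
  · intro h
    exact absurd (Finset.mem_univ i) h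

/-- a clique of size `s` that misses a given stable set of size `r` -/
theorem m2_miss {V : Type} [DecidableEq V] (G : SimpleGraph V) (r s : ℕ) (T : Finset V)
    (hT : T.card = r) (v : V) (hv : v ∈ T) (P : Fin r → Finset V)
    (hP1 : ∀ i, G.IsNClique s (P i)) (hP2 : ∀ i j, i ≠ j → Disjoint (P i) (P j))
    (hP3 : ∀ i, v ∉ P i) (hP4 : ∀ w : V, w ≠ v → ∃ i, w ∈ P i) :
    ∃ K : Finset V, G.IsNClique s K ∧ Disjoint K T := by
  have hr : 0 < r := by
    rw [← hT]; exact Finset.card_pos.mpr ⟨v, hv⟩
  have hf : ∀ w : V, ∃ i : Fin r, w ≠ v → w ∈ P i := by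
    intro w
    by_cases hw : w ≠ v
    · obtain ⟨i, hi⟩ := hP4 w hw
      exact ⟨i, fun _ => hi⟩
    · exact ⟨⟨0, hr⟩, fun h => absurd h hw⟩
  choose f hf using hf
  have hcard : ((T.erase v).image f).card < (univ : Finset (Fin r)).card := by
    refine lt_of_le_of_lt Finset.card_image_le ?_
    rw [Finset.card_erase_of_mem hv, hT]
    simp only [Finset.card_univ, Fintype.card_fin]
    omega
  obtain ⟨i, -, hi⟩ := Finset.exists_mem_notMem_of_card_lt_card hcard
  refine ⟨P i, hP1 i, ?_⟩
  rw [Finset.disjoint_left]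
  intro w hw hwT
  apply hi
  rw [Finset.mem_image]
  have hwv : w ≠ v := by rintro rfl; exact hP3 i hw
  refine ⟨w, Finset.mem_erase.mpr ⟨hwv, hwT⟩, ?_⟩
  by_contra hne
  exact (Finset.disjoint_left.mp (hP2 _ _ hne)) (hf w hwv) hw

theorem m2_le_one {V : Type} [DecidableEq V] (G : SimpleGraph V) (r s : ℕ) (K S : Finset V)
    (hK : G.IsNClique s K) (hS : Gᶜ.IsNClique r S) : (K ∩ S).card ≤ 1 := by
  rw [Finset.card_le_one]
  intro x hx y hy
  rw [Finset.mem_inter] at hx hy
  by_contra hxy
  have h5 : G.Adj x y := hK.isClique (by simpa using hx.1) (by simpa using hy.1) hxy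
  have h6 : Gᶜ.Adj x y := hS.isClique (by simpa using hx.2) (by simpa using hy.2) hxy
  rw [SimpleGraph.compl_adj] at h6
  exact h6.2 h5

theorem exists_family {V : Type} [Fintype V] [DecidableEq V] (G : SimpleGraph V)
    (r s : ℕ) (hr : 0 < r) (hs : 0 < s) (hV : Fintype.card V = r * s + 1)
    (hpart : ∀ v : V,
          (∃ P : Fin r → Finset V,
            (∀ i, G.IsNClique s (P i)) ∧
            (∀ i j, i ≠ j → Disjoint (P i) (P j)) ∧
            (∀ i, v ∉ P i) ∧
            (∀ w : V, w ≠ v → ∃ i, w ∈ P i)) ∧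
          (∃ Q : Fin s → Finset V,
            (∀ i, Gᶜ.IsNClique r (Q i)) ∧
            (∀ i j, i ≠ j → Disjoint (Q i) (Q j)) ∧
            (∀ i, v ∉ Q i) ∧
            (∀ w : V, w ≠ v → ∃ i, w ∈ Q i))) :
    ∃ (ι : Type) (_ : Fintype ι) (_ : DecidableEq ι) (K S : ι → Finset V),
      Fintype.card ι = r * s + 1 ∧ (∀ i, G.IsNClique s (K i)) ∧ (∀ i, Gᶜ.IsNClique r (S i)) ∧
      (∀ i, Disjoint (K i) (S i)) ∧ (∀ i j, i ≠ j → (K i ∩ S j).card = 1) ∧
      (∀ v, (univ.filter (fun i => v ∈ S i)).card = r) := by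
  classical
  have hne : Nonempty V := Fintype.card_pos_iff.mp (by omega)
  obtain ⟨v0⟩ := hne
  choose Q hQ1 hQ2 hQ3 hQ4 using fun v => (hpart v).2
  have hP := fun v => (hpart v).1
  let S0 : Finset V := Q v0 ⟨0, hs⟩
  have hS0 : Gᶜ.IsNClique r S0 := hQ1 v0 ⟨0, hs⟩
  have hS0c : S0.card = r := hS0.card_eq
  let S : Option ({x // x ∈ S0} × Fin s) → Finset V := fun i =>
    match i with
    | none => S0
    | some p => Q p.1.1 p.2
  have hS : ∀ i, Gᶜ.IsNClique r (S i) := by
    intro i
    match i with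
    | none => exact hS0
    | some p => exact hQ1 _ _
  have hK : ∀ i, ∃ K : Finset V, G.IsNClique s K ∧ Disjoint K (S i) := by
    intro i
    have h1 : (S i).card = r := (hS i).card_eq
    have h2 : (S i).Nonempty := Finset.card_pos.mp (by omega)
    obtain ⟨v, hv⟩ := h2
    obtain ⟨P, hP1, hP2, hP3, hP4⟩ := hP v
    exact m2_miss G r s (S i) h1 v hv P hP1 hP2 hP3 hP4
  choose K hK1 hK2 using hK
  have hI : Fintype.card (Option ({x // x ∈ S0} × Fin s)) = r * s + 1 := by
    rw [Fintype.card_option, Fintype.card_prod, Fintype.card_coe, Fintype.card_fin, hS0c]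
  have hdeg : ∀ v, (univ.filter (fun i => v ∈ S i)).card = r := by
    intro v
    rw [Finset.card_filter, Fintype.sum_option, Fintype.sum_prod_type]
    have h1 : ∀ x : {x // x ∈ S0}, ∑ j, (if v ∈ S (some (x, j)) then 1 else 0)
        = if v = x.1 then 0 else 1 := by
      intro x
      by_cases hx : v = x.1
      · rw [if_pos hx]
        refine Finset.sum_eq_zero fun j _ => if_neg ?_
        rw [hx]
        exact hQ3 x.1 j
      · rw [if_neg hx]
        exact m2_count (Q x.1) (hQ2 x.1) v (hQ4 x.1 v hx)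
    rw [Finset.sum_congr rfl (fun x _ => h1 x)]
    have h2 : ∑ x : {x // x ∈ S0}, (if v = x.1 then 0 else 1)
        = ∑ x ∈ S0, (if v = x then 0 else 1) :=
      Finset.sum_coe_sort S0 (fun x => if v = x then 0 else 1)
    rw [h2]
    have h3 : (∑ x ∈ S0, (if v = x then 0 else 1)) + ∑ x ∈ S0, (if v = x then 1 else 0)
        = S0.card := by
      rw [← Finset.sum_add_distrib, Finset.card_eq_sum_ones]
      refine Finset.sum_congr rfl fun x _ => ?_
      split_ifs <;> rfl
    have h4 : ∑ x ∈ S0, (if v = x then 1 else 0) = if v ∈ S0 then 1 else 0 := by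
      rw [Finset.sum_ite_eq]
    have h5 : (if v ∈ S none then 1 else 0) = (if v ∈ S0 then 1 else 0 : ℕ) := rfl
    rw [h5]
    rw [h4, hS0c] at h3
    omega
  refine ⟨Option ({x // x ∈ S0} × Fin s), inferInstance, inferInstance, K, S, hI, hK1, hS, hK2,
    ?_, ?_⟩
  · intro i j hij
    have hle : ∀ j, (K i ∩ S j).card ≤ 1 := fun j => m2_le_one G r s _ _ (hK1 i) (hS j)
    have hsum : ∑ j, (K i ∩ S j).card = r * s := by
      have h1 : ∀ j, (K i ∩ S j).card = ∑ x ∈ K i, (if x ∈ S j then 1 else 0) := by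
        intro j
        rw [Finset.sum_ite_mem, ← Finset.card_eq_sum_ones]
      rw [Finset.sum_congr rfl (fun j _ => h1 j), Finset.sum_comm]
      have h2 : ∀ x ∈ K i, (∑ j, (if x ∈ S j then 1 else 0)) = r := by
        intro x _
        have h3 := hdeg x
        rw [Finset.card_filter] at h3
        exact h3
      rw [Finset.sum_congr rfl h2, Finset.sum_const, (hK1 i).card_eq, smul_eq_mul, mul_comm]
    have h0 : (K i ∩ S i).card = 0 := by
      rw [Finset.card_eq_zero, ← Finset.disjoint_iff_inter_eq_empty]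
      exact hK2 i
    have h3 : ∑ j ∈ univ.erase i, (K i ∩ S j).card = ∑ j ∈ univ.erase i, 1 := by
      have h4 := Finset.add_sum_erase univ (fun j => (K i ∩ S j).card) (Finset.mem_univ i)
      simp only [h0, zero_add] at h4
      rw [hsum] at h4
      rw [h4, Finset.sum_const, Finset.card_erase_of_mem (Finset.mem_univ i), Finset.card_univ, hI]
      simp
    have h5 := (Finset.sum_eq_sum_iff_of_le (fun j _ => hle j)).mp h3
    exact h5 j (Finset.mem_erase.mpr ⟨hij.symm, Finset.mem_univ j⟩)
  · intro v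
    convert hdeg v

end Pool.Agent.H79S
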