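import Mathlib
import Pool.Agent.Lib.H79S.Defs

/-!
# H79S, chunk M3: the system contains all maximum cliques and stable sets

`allK`: `Σ_i |Q ∩ S i| = a * k` (degrees `degS`), each term `≤ 1`, `card ι = a*k+1`, so exactly one
`i0` with `Q ∩ S i0 = ∅`, all the others give `1`.  For every `u`:
`Σ_{i : u ∈ K i} |Q ∩ S i| = |Q \ {u}|` (by `uniq`), so `[u ∈ Q] = k - Σ_{i : u ∈ K i} |Q ∩ S i|
= [u ∈ K i0]`.  `allS`: the same with `sumK`, `sumKS` of `Defs`.
`crit_pair`: if `S i ∪ {u} = S j ∪ {v}` with `v ∈ S i`, `u ∈ S j`, then every clique `K m` with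
`m ≠ i, j` contains both or none of `u, v`; as `u` is in exactly `k` cliques, one of which is `K i`
and none of which is `K j`, for `k ≥ 3` two different cliques contain both.
-/

set_option autoImplicit false

namespace Pool.Agent.H79S

open Finset

variable {V ι : Type} [Fintype V] [DecidableEq V] [Fintype ι] [DecidableEq ι] {a k : ℕ}

/-- the dual system: cliques and stable sets exchanged -/
def PSys.m3dual (P : PSys V ι a k) : PSys V ι k a where
  K := P.S
  S := P.K
  cardK := P.cardS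
  cardS := P.cardK
  cardV := by rw [P.cardV, mul_comm]
  cardI := by rw [P.cardI, mul_comm]
  dis := fun i => (P.dis i).symm
  one := fun i j h => by rw [Finset.inter_comm]; exact P.one j i (Ne.symm h)
  uniq := fun u v h => by
    obtain ⟨i, ⟨h1, h2⟩, h3⟩ := P.uniq v u h.symm
    exact ⟨i, ⟨h2, h1⟩, fun j hj => h3 j ⟨hj.2, hj.1⟩⟩
  degK := P.degS
  degS := P.degK

/-- if `ak+1` numbers at most `1` have the sum `ak`, exactly one of them is zero -/
theorem m3_one_zero (n : ℕ) (hι : Fintype.card ι = n + 1) (f : ι → ℕ) (hf : ∀ i, f i ≤ 1)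
    (hsum : ∑ i, f i = n) : ∃ i0, f i0 = 0 ∧ ∀ i, i ≠ i0 → f i = 1 := by
  have h1 : ∃ i0, f i0 ≠ 1 := by
    by_contra h
    push Not at h
    rw [Finset.sum_congr rfl (fun i _ => h i), Finset.sum_const, Finset.card_univ, hι] at hsum
    simp at hsum
  obtain ⟨i0, hi0⟩ := h1
  have h2 : f i0 = 0 := by
    have := hf i0
    omega
  refine ⟨i0, h2, ?_⟩
  have h3 : ∑ i ∈ univ.erase i0, f i = ∑ i ∈ univ.erase i0, 1 := by
    have h4 := Finset.add_sum_erase univ f (Finset.mem_univ i0)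
    rw [h2, hsum, zero_add] at h4
    rw [h4, Finset.sum_const, Finset.card_erase_of_mem (Finset.mem_univ i0), Finset.card_univ, hι]
    simp
  have h5 := (Finset.sum_eq_sum_iff_of_le (fun i _ => hf i)).mp h3
  intro i hi
  exact h5 i (Finset.mem_erase.mpr ⟨hi, Finset.mem_univ i⟩)

theorem PSys.allS (P : PSys V ι a k) (T : Finset V) (hT : T.card = a)
    (h : ∀ i, (P.K i ∩ T).card ≤ 1) : ∃ i, T = P.S i := by
  have hs := P.sumK T
  rw [hT, mul_comm] at hs
  obtain ⟨i0, h0, h1⟩ := m3_one_zero (a * k) P.cardI (fun i => (P.K i ∩ T).card) h hs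
  refine ⟨i0, ?_⟩
  apply Finset.eq_of_subset_of_card_le
  · intro v hv
    by_contra hn
    have h2 := P.sumKS T v
    have h3 : ∑ i ∈ univ.filter (fun i => v ∈ P.S i), (P.K i ∩ T).card
        = ∑ i ∈ univ.filter (fun i => v ∈ P.S i), 1 := by
      refine Finset.sum_congr rfl (fun i hi => h1 i ?_)
      rintro rfl
      exact hn (Finset.mem_filter.mp hi).2
    rw [h3, Finset.sum_const, P.degS v, smul_eq_mul, mul_one, Finset.card_erase_of_mem hv,
      hT] at h2
    have h4 : 0 < T.card := Finset.card_pos.mpr ⟨v, hv⟩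
    omega
  · rw [hT, P.cardS]

theorem PSys.allK (P : PSys V ι a k) (Q : Finset V) (hQ : Q.card = k)
    (h : ∀ i, (Q ∩ P.S i).card ≤ 1) : ∃ i, Q = P.K i :=
  P.m3dual.allS Q hQ (fun i => by
    rw [Finset.inter_comm]
    exact h i)

theorem PSys.crit_pair (P : PSys V ι a k) (hk : 3 ≤ k) (i j : ι) (u v : V) (huv : u ≠ v)
    (hv : v ∈ P.S i) (hu : u ∈ P.S j) (hui : u ∉ P.S i) (hvj : v ∉ P.S j)
    (h : ∀ x, x ≠ u → x ≠ v → (x ∈ P.S i ↔ x ∈ P.S j)) :
    ∃ m m', m ≠ m' ∧ u ∈ P.K m ∧ v ∈ P.K m ∧ u ∈ P.K m' ∧ v ∈ P.K m' := by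
  have hmain : ∀ m, m ≠ i → u ∈ P.K m → v ∈ P.K m := by
    intro m hmi hum
    obtain ⟨w, hw1, hw2⟩ := P.meet hmi
    by_cases hwv : w = v
    · rw [← hwv]; exact hw1
    · have hwu : w ≠ u := by rintro rfl; exact hui hw2
      have hw3 : w ∈ P.S j := (h w hwu hwv).mp hw2
      exact absurd (P.eqv hw1 hw3 hum hu) hwu
  have hcard : 1 < ((univ.filter (fun m => u ∈ P.K m)).erase i).card := by
    have h1 := Finset.pred_card_le_card_erase (s := univ.filter (fun m => u ∈ P.K m)) (a := i)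
    rw [P.degK u] at h1
    omega
  obtain ⟨m, hm, m', hm', hne⟩ := Finset.one_lt_card.mp hcard
  rw [Finset.mem_erase, Finset.mem_filter] at hm hm'
  exact ⟨m, m', hne, hm.2.2, hmain m hm.1 hm.2.2, hm'.2.2, hmain m' hm'.1 hm'.2.2⟩

end Pool.Agent.H79S
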