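import Mathlib

/-!
# H79S, chunk M4: `r` and `s` are the stability and clique numbers

`G.cliqueNum = s`: `s ≤ cliqueNum` by any clique of a partition; conversely for a clique `Q` with
more than `s` vertices: if some `v ∉ Q`, the `s` stable sets of the partition of `G - v` cover `Q`
and meet it in at most one vertex each; if `Q = univ` then `G` is complete and `Gᶜ.cliqueNum ≤ 1`,
against the hypothesis.  (`r = 0` or `s = 0` would give one vertex, and cliqueNum ≤ 1.)
The same for the complement.
-/

set_option autoImplicit false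

namespace Pool.Agent.H79S

open Finset

theorem m4_half {V : Type} [Fintype V] (G : SimpleGraph V) (r s : ℕ) (hr : 0 < r) (v0 : V)
    (hpart : ∀ v : V,
          (∃ P : Fin r → Finset V,
            (∀ i, G.IsNClique s (P i)) ∧
            (∀ i j, i ≠ j → Disjoint (P i) (P j)) ∧
            (∀ i, v ∉ P i) ∧
            (∀ w : V, w ≠ v → ∃ i, w ∈ P i)) ∧
          (∃ Q : Fin s → Finset V,
            (∀ i, Gᶜ.IsNClique r (Q i)) ∧
            (∀ i j, i ≠ j → Disjoint (Q i) (Q j)) ∧
            (∀ i, v ∉ Q i) ∧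
            (∀ w : V, w ≠ v → ∃ i, w ∈ Q i)))
    (h1 : 2 < Gᶜ.cliqueNum) : G.cliqueNum = s := by
  classical
  apply le_antisymm
  · by_contra hlt
    push Not at hlt
    obtain ⟨Q, hQ⟩ := G.exists_isNClique_cliqueNum
    by_cases hv : ∃ v, v ∉ Q
    · obtain ⟨v, hv⟩ := hv
      obtain ⟨-, P, hP1, hP2, hP3, hP4⟩ := hpart v
      have hf : ∀ w : V, ∃ i : Fin s, w ∈ Q → w ∈ P i := by
        intro w
        by_cases hw : w ∈ Q
        · obtain ⟨i, hi⟩ := hP4 w (by rintro rfl; exact hv hw)
          exact ⟨i, fun _ => hi⟩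
        · have hs : 0 < s := by
            rcases Nat.eq_zero_or_pos s with h0 | h0
            · subst h0
              exfalso
              have hne : Q.Nonempty := by
                rw [← Finset.card_pos, hQ.card_eq]; exact hlt
              obtain ⟨x, hx⟩ := hne
              obtain ⟨i, hi⟩ := hP4 x (by rintro rfl; exact hv hx)
              exact i.elim0
            · exact h0
          exact ⟨⟨0, hs⟩, fun h => absurd h hw⟩
      choose f hf using hf
      have hcard : (univ : Finset (Fin s)).card < Q.card := by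
        rw [hQ.card_eq]; simpa using hlt
      obtain ⟨x, hx, y, hy, hxy, he⟩ :=
        Finset.exists_ne_map_eq_of_card_lt_of_maps_to hcard (f := f) (fun w _ => by simp)
      have h3 := hf x hx
      have h4 := hf y hy
      rw [he] at h3
      have h5 : G.Adj x y := hQ.isClique (by simpa using hx) (by simpa using hy) hxy
      have h6 : Gᶜ.Adj x y := (hP1 _).isClique (by simpa using h3) (by simpa using h4) hxy
      rw [SimpleGraph.compl_adj] at h6
      exact h6.2 h5
    · push Not at hv
      obtain ⟨R, hR⟩ := Gᶜ.exists_isNClique_cliqueNum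
      have h3 : 1 < R.card := by rw [hR.card_eq]; omega
      obtain ⟨x, hx, y, hy, hxy⟩ := Finset.one_lt_card.mp h3
      have h5 : G.Adj x y := hQ.isClique (by simpa using hv x) (by simpa using hv y) hxy
      have h6 : Gᶜ.Adj x y := hR.isClique (by simpa using hx) (by simpa using hy) hxy
      rw [SimpleGraph.compl_adj] at h6
      exact h6.2 h5
  · obtain ⟨⟨P, hP1, -⟩, -⟩ := hpart v0
    have h3 := (hP1 ⟨0, hr⟩).isClique.card_le_cliqueNum
    rwa [(hP1 ⟨0, hr⟩).card_eq] at h3

theorem m4_le {V : Type} [Fintype V] (G : SimpleGraph V) : G.cliqueNum ≤ Fintype.card V := by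
  obtain ⟨Q, hQ⟩ := G.exists_isNClique_cliqueNum
  rw [← hQ.card_eq]
  exact Finset.card_le_univ Q

theorem nums {V : Type} [Fintype V] (G : SimpleGraph V)
    (r s : ℕ) (hV : Fintype.card V = r * s + 1)
    (hpart : ∀ v : V,
          (∃ P : Fin r → Finset V,
            (∀ i, G.IsNClique s (P i)) ∧
            (∀ i j, i ≠ j → Disjoint (P i) (P j)) ∧
            (∀ i, v ∉ P i) ∧
            (∀ w : V, w ≠ v → ∃ i, w ∈ P i)) ∧
          (∃ Q : Fin s → Finset V,
            (∀ i, Gᶜ.IsNClique r (Q i)) ∧
            (∀ i j, i ≠ j → Disjoint (Q i) (Q j)) ∧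
            (∀ i, v ∉ Q i) ∧
            (∀ w : V, w ≠ v → ∃ i, w ∈ Q i)))
    (h1 : 2 < Gᶜ.cliqueNum) (h2 : 2 < G.cliqueNum) :
    Gᶜ.cliqueNum = r ∧ G.cliqueNum = s ∧ 0 < r ∧ 0 < s := by
  have hc := m4_le G
  have hr : 0 < r := by
    rcases Nat.eq_zero_or_pos r with h0 | h0
    · subst h0
      simp at hV
      omega
    · exact h0
  have hs : 0 < s := by
    rcases Nat.eq_zero_or_pos s with h0 | h0
    · subst h0
      simp at hV
      omega
    · exact h0
  have hne : Nonempty V := Fintype.card_pos_iff.mp (by omega)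
  obtain ⟨v0⟩ := hne
  refine ⟨?_, m4_half G r s hr v0 hpart h1, hr, hs⟩
  refine m4_half Gᶜ s r hs v0 ?_ (by rw [compl_compl]; exact h2)
  intro v
  obtain ⟨hP, hQ⟩ := hpart v
  rw [compl_compl]
  exact ⟨hQ, hP⟩

end Pool.Agent.H79S
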