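import Mathlib
import Pool.Agent.Lib.H79S.Loc

/-!
# H79S, chunk CL: classification of the cliques of a system with local data `LocA`

Partition facts: for `v ≠ a`, `v` is in exactly one of `S ra, S q1, S ka` (`exKS`, `ata`, `eqi`);
for `v ≠ r`, `v` is in exactly one of `S ra, S rb, S rc` (`exKS`, `atr`, `eqi`).
-/

set_option autoImplicit false

namespace Pool.Agent.H79S

open Finset

variable {V ι : Type} [Fintype V] [DecidableEq V] [Fintype ι] [DecidableEq ι] {al : ℕ}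

namespace LocA

variable {P : PSys V ι al 3} (L : LocA P)

theorem partA (v : V) (hv : v ≠ L.a) : v ∈ P.S L.ra ∨ v ∈ P.S L.q1 ∨ v ∈ P.S L.ka := by
  obtain ⟨i, hi1, hi2⟩ := P.exKS (u := L.a) (v := v) (fun e => hv e.symm)
  rcases L.ata i hi1 with rfl | rfl | rfl
  · exact Or.inr (Or.inl hi2)
  · exact Or.inl hi2
  · exact Or.inr (Or.inr hi2)

theorem partR (v : V) (hv : v ≠ L.r) : v ∈ P.S L.ra ∨ v ∈ P.S L.rb ∨ v ∈ P.S L.rc := by
  obtain ⟨i, hi1, hi2⟩ := P.exKS (u := L.r) (v := v) (fun e => hv e.symm)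
  rcases L.atr i hi1 with rfl | rfl | rfl
  · exact Or.inl hi2
  · exact Or.inr (Or.inl hi2)
  · exact Or.inr (Or.inr hi2)

theorem aq1 : L.a ∈ P.K L.q1 := by rw [L.hq1]; simp
theorem ara : L.a ∈ P.K L.ra := by rw [L.hra]; simp
theorem pra : L.p ∈ P.K L.ra := by rw [L.hra]; simp
theorem rra : L.r ∈ P.K L.ra := by rw [L.hra]; simp

theorem dAB {x : V} (h1 : x ∈ P.S L.ra) (h2 : x ∈ P.S L.q1) : False :=
  L.nra1 (P.eqi L.ara h1 L.aq1 h2)
theorem dAC {x : V} (h1 : x ∈ P.S L.ra) (h2 : x ∈ P.S L.ka) : False :=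
  L.nrak (P.eqi L.ara h1 L.aka h2)
theorem dBC {x : V} (h1 : x ∈ P.S L.q1) (h2 : x ∈ P.S L.ka) : False :=
  L.n1k (P.eqi L.aq1 h1 L.aka h2)
theorem dAB2 {x : V} (h1 : x ∈ P.S L.ra) (h2 : x ∈ P.S L.rb) : False :=
  L.nrab (P.eqi L.rra h1 L.rrb h2)
theorem dAC2 {x : V} (h1 : x ∈ P.S L.ra) (h2 : x ∈ P.S L.rc) : False :=
  L.nrac (P.eqi L.rra h1 L.rrc h2)
theorem dB2C2 {x : V} (h1 : x ∈ P.S L.rb) (h2 : x ∈ P.S L.rc) : False :=
  L.nbc (P.eqi L.rrb h1 L.rrc h2)

theorem cl_eq3 {m : ι} {x y z : V} (hx : x ∈ P.K m) (hy : y ∈ P.K m) (hz : z ∈ P.K m) (hxy : x ≠ y)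
    (hxz : x ≠ z) (hyz : y ≠ z) : P.K m = {x, y, z} := by
  symm
  apply Finset.eq_of_subset_of_card_le
  · intro t ht
    simp only [Finset.mem_insert, Finset.mem_singleton] at ht
    rcases ht with rfl | rfl | rfl
    · exact hx
    · exact hy
    · exact hz
  · rw [P.cardK m, Finset.card_insert_of_notMem (by simp [hxy, hxz]),
      Finset.card_insert_of_notMem (by simp [hyz]), Finset.card_singleton]

/-- The types of cliques.  Proof: if `a ∈ K m` use `ata`; for `m = ka`: `r ∉ K ka` (`r ∈ S ka`),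
`K ka` meets `S ra` in `x`, meets `S q1` in `y`, `x ≠ y`, and `y ∉ S rb` by `eqv` with `a`
(`a ∈ S rb`), `y ≠ r`, `y ∉ S ra`, so `y ∈ S rc`.  If `r ∈ K m` use `atr`; `m = rb`: `K rb` meets
`S ra` in `x` and `S q1` in `y` (`rb ≠ q1` since `a ∈ K q1`, `a ∈ S rb`), `y ∉ S rb`, so `y ∈ S rc`;
`m = rc`: the same with `y ∉ S rc` so `y ∈ S rb` (`rc ≠ q1` since `b ∈ K q1`, `b ∈ S rc`).  Else
`K m` meets `S ra, S q1, S ka` in `x, y, z`, distinct, so `K m = {x, y, z}`; `y, z ≠ r`, `y, z ∉ S ra`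
and `K m` meets `S rb` (and `S rc`) in at most one vertex. -/
theorem classify (m : ι) :
    m = L.q1 ∨ m = L.ra ∨
    (m = L.ka ∧ ∃ x y, P.K m = {L.a, x, y} ∧ L.a ≠ x ∧ L.a ≠ y ∧ x ≠ y ∧ x ∈ P.S L.ra ∧
      y ∈ P.S L.q1 ∧ y ∈ P.S L.rc) ∨
    (m = L.rb ∧ ∃ x y, P.K m = {L.r, x, y} ∧ L.r ≠ x ∧ L.r ≠ y ∧ x ≠ y ∧ x ∈ P.S L.ra ∧
      y ∈ P.S L.q1 ∧ y ∈ P.S L.rc) ∨
    (m = L.rc ∧ ∃ x y, P.K m = {L.r, x, y} ∧ L.r ≠ x ∧ L.r ≠ y ∧ x ≠ y ∧ x ∈ P.S L.ra ∧
      y ∈ P.S L.q1 ∧ y ∈ P.S L.rb) ∨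
    (m ≠ L.q1 ∧ m ≠ L.ra ∧ m ≠ L.ka ∧ m ≠ L.rb ∧ m ≠ L.rc ∧
      ∃ x y z, P.K m = {x, y, z} ∧ x ≠ y ∧ x ≠ z ∧ y ≠ z ∧ x ∈ P.S L.ra ∧
      y ∈ P.S L.q1 ∧ z ∈ P.S L.ka ∧
      ((y ∈ P.S L.rb ∧ z ∈ P.S L.rc) ∨ (y ∈ P.S L.rc ∧ z ∈ P.S L.rb))) := by
  by_cases ha : L.a ∈ P.K m
  · rcases L.ata m ha with rfl | rfl | rfl
    · exact Or.inl rfl
    · exact Or.inr (Or.inl rfl)
    · obtain ⟨x, hx1, hx2⟩ := P.meet (i := L.ka) (j := L.ra) L.nrak.symm
      obtain ⟨y, hy1, hy2⟩ := P.meet (i := L.ka) (j := L.q1) L.n1k.symm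
      have hax : L.a ≠ x := P.ne_of_KS L.ara hx2
      have hay : L.a ≠ y := P.ne_of_KS L.aq1 hy2
      have hxy : x ≠ y := by
        rintro rfl
        exact L.dAB hx2 hy2
      have hyr : y ≠ L.r := P.ne_of_KS hy1 L.rC
      refine Or.inr (Or.inr (Or.inl ⟨rfl, x, y, cl_eq3 L.aka hx1 hy1 hax hay hxy, hax, hay, hxy, hx2,
        hy2, ?_⟩))
      rcases L.partR y hyr with h | h | h
      · exact absurd hy2 (fun _ => L.dAB h hy2)
      · exact absurd (P.eqv L.aka L.aB2 hy1 h) hay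
      · exact h
  · by_cases hr : L.r ∈ P.K m
    · rcases L.atr m hr with rfl | rfl | rfl
      · exact absurd L.ara ha
      · have h1 : L.rb ≠ L.q1 := by
          intro e
          apply ha
          rw [e]
          exact L.aq1
        obtain ⟨x, hx1, hx2⟩ := P.meet (i := L.rb) (j := L.ra) L.nrab.symm
        obtain ⟨y, hy1, hy2⟩ := P.meet (i := L.rb) (j := L.q1) h1
        have hrx : L.r ≠ x := P.ne_of_KS L.rra hx2
        have hry : L.r ≠ y := by
          intro e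
          rw [← e] at hy2
          exact L.dBC hy2 L.rC
        have hxy : x ≠ y := by
          rintro rfl
          exact L.dAB hx2 hy2
        refine Or.inr (Or.inr (Or.inr (Or.inl ⟨rfl, x, y, cl_eq3 L.rrb hx1 hy1 hrx hry hxy, hrx, hry,
          hxy, hx2, hy2, ?_⟩)))
        rcases L.partR y hry.symm with h | h | h
        · exact absurd hy2 (fun _ => L.dAB h hy2)
        · exact absurd h (P.notS hy1)
        · exact h
      · have h1 : L.rc ≠ L.q1 := by
          intro e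
          apply ha
          rw [e]
          exact L.aq1
        obtain ⟨x, hx1, hx2⟩ := P.meet (i := L.rc) (j := L.ra) L.nrac.symm
        obtain ⟨y, hy1, hy2⟩ := P.meet (i := L.rc) (j := L.q1) h1
        have hrx : L.r ≠ x := P.ne_of_KS L.rra hx2
        have hry : L.r ≠ y := by
          intro e
          rw [← e] at hy2
          exact L.dBC hy2 L.rC
        have hxy : x ≠ y := by
          rintro rfl
          exact L.dAB hx2 hy2
        refine Or.inr (Or.inr (Or.inr (Or.inr (Or.inl ⟨rfl, x, y, cl_eq3 L.rrc hx1 hy1 hrx hry hxy,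
          hrx, hry, hxy, hx2, hy2, ?_⟩))))
        rcases L.partR y hry.symm with h | h | h
        · exact absurd hy2 (fun _ => L.dAB h hy2)
        · exact h
        · exact absurd h (P.notS hy1)
    · have m1 : m ≠ L.q1 := by
        rintro rfl
        exact ha L.aq1
      have m2 : m ≠ L.ra := by
        rintro rfl
        exact ha L.ara
      have m3 : m ≠ L.ka := by
        rintro rfl
        exact ha L.aka
      have m4 : m ≠ L.rb := by
        rintro rfl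
        exact hr L.rrb
      have m5 : m ≠ L.rc := by
        rintro rfl
        exact hr L.rrc
      obtain ⟨x, hx1, hx2⟩ := P.meet m2
      obtain ⟨y, hy1, hy2⟩ := P.meet m1
      obtain ⟨z, hz1, hz2⟩ := P.meet m3
      have hxy : x ≠ y := by
        rintro rfl
        exact L.dAB hx2 hy2
      have hxz : x ≠ z := by
        rintro rfl
        exact L.dAC hx2 hz2
      have hyz : y ≠ z := by
        rintro rfl
        exact L.dBC hy2 hz2
      have hyr : y ≠ L.r := by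
        rintro rfl
        exact hr hy1
      have hzr : z ≠ L.r := by
        rintro rfl
        exact hr hz1
      refine Or.inr (Or.inr (Or.inr (Or.inr (Or.inr ⟨m1, m2, m3, m4, m5, x, y, z,
        cl_eq3 hx1 hy1 hz1 hxy hxz hyz, hxy, hxz, hyz, hx2, hy2, hz2, ?_⟩))))
      rcases L.partR y hyr with h | h | h
      · exact absurd hy2 (fun _ => L.dAB h hy2)
      · rcases L.partR z hzr with h' | h' | h'
        · exact absurd hz2 (fun _ => L.dAC h' hz2)
        · exact absurd (P.eqv hy1 h hz1 h') hyz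
        · exact Or.inl ⟨h, h'⟩
      · rcases L.partR z hzr with h' | h' | h'
        · exact absurd hz2 (fun _ => L.dAC h' hz2)
        · exact Or.inr ⟨h, h'⟩
        · exact absurd (P.eqv hy1 h hz1 h') hyz

end LocA

end Pool.Agent.H79S
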