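import Mathlib
import Pool.Agent.Lib.H79S.CL

/-!
# H79S, chunk N1: a stable set meeting `S ra` only in `w` does not contain `r`

Let `B' = (B \ F) ∪ (F \ S t)` where `B = S q1, C = S ka, B2 = S rb, C2 = S rc` and
`F = (B ∩ B2) ∪ (C ∩ C2)`.  With `d3 = [v1 ∈ B2]` and `dt = [K t contains a vertex of B ∩ B2]`:
`|K m ∩ B'| = 1 + e m`, `e q2 = 1, e q3 = d3, e t = dt`, `e m = 0` otherwise.  Check by
`LocA.classify` and `count3`:
* `q1 = {w, a, b}`: only `b ∈ B'` (`b ∈ C ∩ C2`, `b ∉ S t` by `eqv` with `w`).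
* `ra = {a, p, r}`: only `p ∈ B'` (`p ∈ B`, `p ∈ C2` so `p ∉ B2`); `r ∉ S rc`, `r ∉ S q1`.
* `ka = {a, x, y}`, `y ∈ B ∩ C2`: only `y`.
* `rb = {r, x, y}`, `y ∈ B ∩ C2`: only `y` (`r ∈ C`, `r ∉ C2` as `r ∈ K rc`).
* `rc = {r, x, y}`, `y ∈ B ∩ B2`: only `y`: `y ∉ S t` by `eqv` with `r`.
* ordinary `m` with `w ∈ K m`: `m = q2` (`b, c ∈ F \ S t`: 2), `m = q3` (`v1 ∈ B, v2 ∈ C`, neither in
  `S t` by `eqv` with `w`; `2` if `v1 ∈ B2`; `1` if not).
* ordinary `m = {x, y, z}`, `w ∉ K m`: if `y ∈ C2, z ∈ B2`: only `y`.  If `y ∈ B2, z ∈ C2`: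
  `x ∉ S t` (hypothesis `hA`), and `S t` contains exactly one of `y, z` if `m ≠ t` (`meet`, `eqv`), none
  if `m = t` (`notS`).
Note `t ≠ q1, q2, q3` (`w ∈ S t`), `t ≠ ra, rb, rc` (`r ∈ S t`), `t ≠ ka` (`w ∈ S ka` no, `dAC`).
(If `q3 = rb` or `rc` then `r ∈ K q3`, `w ∈ K q3`, impossible since `w, r ∈ S t`.)
`PSys.recon`: `3 (|B'| - al) = 2 + d3 + dt`, so `|B'| - al = 1` and `d3 + dt = 1`; at `v = w`
(`w ∉ B'`, `w ∉ S q2, S q3`, `w ∈ S t`): `0 = 1 - dt`; so `dt = 1, d3 = 0`.  For every `v ∈ S ra`,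
`v ≠ w`: `v ∉ B'`, `v ∉ S t`, so `0 = 1 - [v ∈ S q2]` (`e q3 = 0`).  Hence `(S ra).erase w ⊆ S q2`; also
`a, v2 ∈ S q2`, both not in `S ra` (`a ∈ K ra`; `v2 ∈ S ka`), `a ≠ v2` (`a ∉ K q3`): `al + 1 ≤ al`.
-/

set_option autoImplicit false

namespace Pool.Agent.H79S

open Finset

variable {V ι : Type} [Fintype V] [DecidableEq V] [Fintype ι] [DecidableEq ι] {al : ℕ}

namespace LocA

variable {P : PSys V ι al 3} (L : LocA P)

/-- The set `F`. -/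
def n1_F : Finset V := (P.S L.q1 ∩ P.S L.rb) ∪ (P.S L.ka ∩ P.S L.rc)

/-- The set `B'`. -/
def n1_B (t : ι) : Finset V := (P.S L.q1 \ L.n1_F) ∪ (L.n1_F \ P.S t)

theorem n1_mem (t : ι) (x : V) : x ∈ L.n1_B t ↔
    (x ∈ P.S L.q1 ∧ x ∉ L.n1_F) ∨ (x ∈ L.n1_F ∧ x ∉ P.S t) := by
  simp [n1_B]

theorem n1_memF (x : V) : x ∈ L.n1_F ↔
    (x ∈ P.S L.q1 ∧ x ∈ P.S L.rb) ∨ (x ∈ P.S L.ka ∧ x ∈ P.S L.rc) := by
  simp [n1_F]

theorem n1_in1 (t : ι) {x : V} (h1 : x ∈ P.S L.q1) (h2 : x ∈ P.S L.rc) : x ∈ L.n1_B t := by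
  rw [n1_mem, n1_memF]
  refine Or.inl ⟨h1, ?_⟩
  rintro (⟨_, h4⟩ | ⟨h3, _⟩)
  · exact L.dB2C2 h4 h2
  · exact L.dBC h1 h3

theorem n1_in2 (t : ι) {x : V} (h1 : x ∈ P.S L.q1) (h2 : x ∈ P.S L.rb) :
    x ∈ L.n1_B t ↔ x ∉ P.S t := by
  rw [n1_mem]
  have hF : x ∈ L.n1_F := (L.n1_memF x).2 (Or.inl ⟨h1, h2⟩)
  constructor
  · rintro (⟨_, h4⟩ | ⟨_, h4⟩)
    · exact absurd hF h4
    · exact h4
  · intro h
    exact Or.inr ⟨hF, h⟩

theorem n1_in3 (t : ι) {x : V} (h1 : x ∈ P.S L.ka) (h2 : x ∈ P.S L.rc) :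
    x ∈ L.n1_B t ↔ x ∉ P.S t := by
  rw [n1_mem]
  have hF : x ∈ L.n1_F := (L.n1_memF x).2 (Or.inr ⟨h1, h2⟩)
  constructor
  · rintro (⟨_, h4⟩ | ⟨_, h4⟩)
    · exact absurd hF h4
    · exact h4
  · intro h
    exact Or.inr ⟨hF, h⟩

theorem n1_out (t : ι) {x : V} (h1 : x ∉ P.S L.q1) (h2 : x ∈ P.S L.ka → x ∉ P.S L.rc) :
    x ∉ L.n1_B t := by
  rw [n1_mem, n1_memF]
  rintro (⟨h3, _⟩ | ⟨h3, _⟩)
  · exact h1 h3
  · rcases h3 with ⟨h4, _⟩ | ⟨h4, h5⟩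
    · exact h1 h4
    · exact h2 h4 h5

theorem n1_out1 (t : ι) {x : V} (h1 : x ∈ P.S L.ka) (h2 : x ∈ P.S L.rb) : x ∉ L.n1_B t :=
  L.n1_out t (fun h => L.dBC h h1) (fun _ h => L.dB2C2 h2 h)

theorem n1_outA (t : ι) {x : V} (h1 : x ∈ P.S L.ra) : x ∉ L.n1_B t :=
  L.n1_out t (fun h => L.dAB h1 h) (fun h _ => L.dAC h1 h)

theorem n1_outa (t : ι) : L.a ∉ L.n1_B t :=
  L.n1_out t (P.notS L.aq1) (fun h _ => P.notS L.aka h)

theorem n1_outr (t : ι) : L.r ∉ L.n1_B t :=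
  L.n1_out t (fun h => L.dBC h L.rC) (fun _ h => P.notS L.rrc h)

theorem n1_wq1 : L.w ∈ P.K L.q1 := by rw [L.hq1]; simp
theorem n1_wq2 : L.w ∈ P.K L.q2 := by rw [L.hq2]; simp
theorem n1_wq3 : L.w ∈ P.K L.q3 := by rw [L.hq3]; simp
theorem n1_bq1 : L.b ∈ P.K L.q1 := by rw [L.hq1]; simp
theorem n1_bq2 : L.b ∈ P.K L.q2 := by rw [L.hq2]; simp
theorem n1_cq2 : L.c ∈ P.K L.q2 := by rw [L.hq2]; simp
theorem n1_v1q3 : L.v1 ∈ P.K L.q3 := by rw [L.hq3]; simp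
theorem n1_v2q3 : L.v2 ∈ P.K L.q3 := by rw [L.hq3]; simp

theorem n1_wr : L.w ≠ L.r := by
  intro h
  exact P.notS L.rra (h ▸ L.wA)

open Classical in
/-- The corrections. -/
noncomputable def n1_e (t : ι) (i : ι) : ℤ :=
  (if i = L.q2 then 1 else 0) + (if i = L.q3 then (if L.v1 ∈ P.S L.rb then 1 else 0) else 0) +
    (if i = t then (if ∃ u ∈ P.K t, u ∈ P.S L.q1 ∧ u ∈ P.S L.rb then 1 else 0) else 0)

theorem n1_count (t : ι) (hwt : L.w ∈ P.S t) (hA : ∀ x, x ∈ P.S t → x ∈ P.S L.ra → x = L.w)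
    (hrt : L.r ∈ P.S t) (m : ι) : ((P.K m ∩ L.n1_B t).card : ℤ) = 1 + L.n1_e t m := by
  have q1t : L.q1 ≠ t := fun h => P.notS L.n1_wq1 (h ▸ hwt)
  have q2t : L.q2 ≠ t := fun h => P.notS L.n1_wq2 (h ▸ hwt)
  have q3t : L.q3 ≠ t := fun h => P.notS L.n1_wq3 (h ▸ hwt)
  have rat : L.ra ≠ t := fun h => P.notS L.rra (h ▸ hrt)
  have rbt : L.rb ≠ t := fun h => P.notS L.rrb (h ▸ hrt)
  have rct : L.rc ≠ t := fun h => P.notS L.rrc (h ▸ hrt)
  have kat : L.ka ≠ t := fun h => L.dAC L.wA (h ▸ hwt)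
  have ra2 : L.ra ≠ L.q2 := fun h => P.notS L.ara (h ▸ L.aq2)
  have ra3 : L.ra ≠ L.q3 := fun h => L.a3 (h ▸ L.ara)
  have ka2 : L.ka ≠ L.q2 := fun h => P.notS L.aka (h ▸ L.aq2)
  have ka3 : L.ka ≠ L.q3 := fun h => L.a3 (h ▸ L.aka)
  have rb2 : L.rb ≠ L.q2 := fun h => P.notS (h ▸ L.n1_cq2) L.cB2
  have rc2 : L.rc ≠ L.q2 := fun h => P.notS (h ▸ L.n1_bq2) L.bC2
  have rb3 : L.rb ≠ L.q3 := fun h => L.n1_wr (P.eqv L.n1_wq3 hwt (h ▸ L.rrb) hrt)
  have rc3 : L.rc ≠ L.q3 := fun h => L.n1_wr (P.eqv L.n1_wq3 hwt (h ▸ L.rrc) hrt)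
  have bt : L.b ∉ P.S t := fun h => L.hwb (P.eqv L.n1_wq1 hwt L.n1_bq1 h)
  have ct : L.c ∉ P.S t := fun h => L.hwc (P.eqv L.n1_wq2 hwt L.n1_cq2 h)
  have v1t : L.v1 ∉ P.S t := fun h => L.hwv1 (P.eqv L.n1_wq3 hwt L.n1_v1q3 h)
  have v2t : L.v2 ∉ P.S t := fun h => L.hwv2 (P.eqv L.n1_wq3 hwt L.n1_v2q3 h)
  have e0 : ∀ m, m ≠ L.q2 → m ≠ L.q3 → m ≠ t → L.n1_e t m = 0 := by
    intro m h1 h2 h3
    rw [n1_e, if_neg h1, if_neg h2, if_neg h3]
    norm_num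
  rcases L.classify m with rfl | rfl | ⟨rfl, x, y, hK, hax, hay, hxy, hx, hy1, hy2⟩ |
    ⟨rfl, x, y, hK, hax, hay, hxy, hx, hy1, hy2⟩ | ⟨rfl, x, y, hK, hax, hay, hxy, hx, hy1, hy2⟩ |
    ⟨hm1, hm2, hm3, hm4, hm5, x, y, z, hK, hxy, hxz, hyz, hx, hy, hz, hyz2⟩
  · rw [e0 _ L.n12 L.n13 q1t, L.hq1, count3 L.hwa L.hwb L.hab, if_neg (L.n1_outA t L.wA),
      if_neg (L.n1_outa t), if_pos ((L.n1_in3 t L.bC L.bC2).2 bt)]
    norm_num
  · rw [e0 _ ra2 ra3 rat, L.hra, count3 L.hap L.har L.hpr, if_neg (L.n1_outa t),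
      if_pos (L.n1_in1 t L.pB L.pC2), if_neg (L.n1_outr t)]
    norm_num
  · rw [e0 _ ka2 ka3 kat, hK, count3 hax hay hxy, if_neg (L.n1_outa t),
      if_neg (L.n1_outA t hx), if_pos (L.n1_in1 t hy1 hy2)]
    norm_num
  · rw [e0 _ rb2 rb3 rbt, hK, count3 hax hay hxy, if_neg (L.n1_outr t),
      if_neg (L.n1_outA t hx), if_pos (L.n1_in1 t hy1 hy2)]
    norm_num
  · have hyK : y ∈ P.K L.rc := by rw [hK]; simp
    have hyt : y ∉ P.S t := fun h => hay (P.eqv L.rrc hrt hyK h)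
    rw [e0 _ rc2 rc3 rct, hK, count3 hax hay hxy, if_neg (L.n1_outr t),
      if_neg (L.n1_outA t hx), if_pos ((L.n1_in2 t hy1 hy2).2 hyt)]
    norm_num
  · by_cases hm6 : m = L.q2
    · subst hm6
      rw [L.hq2, count3 L.hwb L.hwc L.hbc, if_neg (L.n1_outA t L.wA),
        if_pos ((L.n1_in3 t L.bC L.bC2).2 bt), if_pos ((L.n1_in2 t L.cB L.cB2).2 ct),
        n1_e, if_pos rfl, if_neg L.n23, if_neg q2t]
      norm_num
    by_cases hm7 : m = L.q3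
    · subst hm7
      have v2r : L.v2 ≠ L.r := by
        intro h
        exact L.n1_wr (P.eqv L.n1_wq3 hwt (h ▸ L.n1_v2q3) hrt)
      have v1r : L.v1 ≠ L.r := by
        intro h
        exact L.n1_wr (P.eqv L.n1_wq3 hwt (h ▸ L.n1_v1q3) hrt)
      rw [L.hq3, count3 L.hwv1 L.hwv2 L.hv12, if_neg (L.n1_outA t L.wA),
        n1_e, if_neg (Ne.symm L.n23), if_pos rfl, if_neg q3t]
      by_cases hv : L.v1 ∈ P.S L.rb
      · have hv2 : L.v2 ∈ P.S L.rc := by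
          rcases L.partR L.v2 v2r with h | h | h
          · exact (L.dAC h L.v2C).elim
          · exact absurd (P.eqv L.n1_v1q3 hv L.n1_v2q3 h) L.hv12
          · exact h
        rw [if_pos ((L.n1_in2 t L.v1B hv).2 v1t), if_pos ((L.n1_in3 t L.v2C hv2).2 v2t),
          if_pos hv]
        norm_num
      · have hv1 : L.v1 ∈ P.S L.rc := by
          rcases L.partR L.v1 v1r with h | h | h
          · exact (L.dAB h L.v1B).elim
          · exact absurd h hv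
          · exact h
        have hv2 : L.v2 ∈ P.S L.rb := by
          rcases L.partR L.v2 v2r with h | h | h
          · exact (L.dAC h L.v2C).elim
          · exact h
          · exact absurd (P.eqv L.n1_v1q3 hv1 L.n1_v2q3 h) L.hv12
        rw [if_pos (L.n1_in1 t L.v1B hv1), if_neg (L.n1_out1 t L.v2C hv2), if_neg hv]
        norm_num
    have hwm : L.w ∉ P.K m := by
      intro h
      rcases L.atw m h with h | h | h
      · exact hm1 h
      · exact hm6 h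
      · exact hm7 h
    have hxK : x ∈ P.K m := by rw [hK]; simp
    have hyK : y ∈ P.K m := by rw [hK]; simp
    have hzK : z ∈ P.K m := by rw [hK]; simp
    by_cases hm8 : m = t
    · have hyt : y ∉ P.S t := P.notS (hm8 ▸ hyK)
      have hzt : z ∉ P.S t := P.notS (hm8 ▸ hzK)
      have e1 : L.n1_e t m = if ∃ u ∈ P.K t, u ∈ P.S L.q1 ∧ u ∈ P.S L.rb then 1 else 0 := by
        rw [n1_e, if_neg hm6, if_neg hm7, if_pos hm8]
        norm_num
      rw [e1, hK, count3 hxy hxz hyz, if_neg (L.n1_outA t hx)]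
      rcases hyz2 with ⟨h1, h2⟩ | ⟨h1, h2⟩
      · rw [if_pos ((L.n1_in2 t hy h1).2 hyt), if_pos ((L.n1_in3 t hz h2).2 hzt),
          if_pos ⟨y, hm8 ▸ hyK, hy, h1⟩]
        norm_num
      · rw [if_pos (L.n1_in1 t hy h1), if_neg (L.n1_out1 t hz h2), if_neg]
        · norm_num
        · rintro ⟨u, hu1, hu2, hu3⟩
          have hu4 : u ∈ P.K m := by rw [hm8]; exact hu1
          have hu5 : u = y := P.eqv hu4 hu2 hyK hy
          rw [hu5] at hu3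
          exact L.dB2C2 hu3 h1
    · rw [e0 m hm6 hm7 hm8, hK, count3 hxy hxz hyz, if_neg (L.n1_outA t hx)]
      rcases hyz2 with ⟨h1, h2⟩ | ⟨h1, h2⟩
      · have hxt : x ∉ P.S t := by
          intro h
          have := hA x h hx
          rw [this] at hxK
          exact hwm hxK
        obtain ⟨u, hu1, hu2⟩ := P.meet hm8
        by_cases hyt : y ∈ P.S t
        · have hzt : z ∉ P.S t := fun h => hyz (P.eqv hyK hyt hzK h)
          rw [if_neg (fun h => (L.n1_in2 t hy h1).1 h hyt),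
            if_pos ((L.n1_in3 t hz h2).2 hzt)]
          norm_num
        · have hzt : z ∈ P.S t := by
            rw [hK] at hu1
            simp only [Finset.mem_insert, Finset.mem_singleton] at hu1
            rcases hu1 with rfl | rfl | rfl
            · exact absurd hu2 hxt
            · exact absurd hu2 hyt
            · exact hu2
          rw [if_pos ((L.n1_in2 t hy h1).2 hyt),
            if_neg (fun h => (L.n1_in3 t hz h2).1 h hzt)]
          norm_num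
      · rw [if_pos (L.n1_in1 t hy h1), if_neg (L.n1_out1 t hz h2)]
        norm_num

theorem noR (t : ι) (hwt : L.w ∈ P.S t) (hA : ∀ x, x ∈ P.S t → x ∈ P.S L.ra → x = L.w)
    (hrt : L.r ∈ P.S t) : False := by
  have q2t : L.q2 ≠ t := fun h => P.notS L.n1_wq2 (h ▸ hwt)
  have q3t : L.q3 ≠ t := fun h => P.notS L.n1_wq3 (h ▸ hwt)
  obtain ⟨h1, h2⟩ := P.recon (L.n1_B t) (L.n1_e t) (L.n1_count t hwt hA hrt)
  have hsum : ∑ i, L.n1_e t i = 1 + L.n1_e t L.q3 + L.n1_e t t := by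
    have e3 : L.n1_e t L.q3 = if L.v1 ∈ P.S L.rb then 1 else 0 := by
      rw [n1_e, if_neg (Ne.symm L.n23), if_pos rfl, if_neg q3t]
      norm_num
    have et : L.n1_e t t = if ∃ u ∈ P.K t, u ∈ P.S L.q1 ∧ u ∈ P.S L.rb then 1 else 0 := by
      rw [n1_e, if_neg (Ne.symm q2t), if_neg (Ne.symm q3t), if_pos rfl]
      norm_num
    rw [e3, et]
    unfold n1_e
    rw [Finset.sum_add_distrib, Finset.sum_add_distrib, Finset.sum_ite_eq', Finset.sum_ite_eq',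
      Finset.sum_ite_eq', if_pos (Finset.mem_univ _), if_pos (Finset.mem_univ _),
      if_pos (Finset.mem_univ _)]
  have hb3 : L.n1_e t L.q3 = 0 ∨ L.n1_e t L.q3 = 1 := by
    rw [n1_e, if_neg (Ne.symm L.n23), if_pos rfl, if_neg q3t]
    split_ifs
    · right; norm_num
    · left; norm_num
  have hbt : L.n1_e t t = 0 ∨ L.n1_e t t = 1 := by
    rw [n1_e, if_neg (Ne.symm q2t), if_neg (Ne.symm q3t), if_pos rfl]
    split_ifs
    · right; norm_num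
    · left; norm_num
  rw [hsum] at h1
  push_cast at h1
  have hcard : ((L.n1_B t).card : ℤ) - al = 1 := by omega
  have hone : L.n1_e t L.q3 + L.n1_e t t = 1 := by omega
  have he : ∀ i, i ≠ L.q2 → i ≠ L.q3 → i ≠ t → L.n1_e t i = 0 := by
    intro i h3 h4 h5
    rw [n1_e, if_neg h3, if_neg h4, if_neg h5]
    norm_num
  have hw := h2 L.w
  rw [if_neg (L.n1_outA t L.wA), hcard] at hw
  have hw2 : ∑ i ∈ univ.filter (fun i => L.w ∈ P.S i), L.n1_e t i = L.n1_e t t := by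
    rw [Finset.sum_eq_single t]
    · intro i hi hit
      rw [Finset.mem_filter] at hi
      exact he i (fun h => P.notS L.n1_wq2 (h ▸ hi.2)) (fun h => P.notS L.n1_wq3 (h ▸ hi.2)) hit
    · intro h
      refine absurd ?_ h
      rw [Finset.mem_filter]
      exact ⟨Finset.mem_univ _, hwt⟩
  rw [hw2] at hw
  have ht1 : L.n1_e t t = 1 := by omega
  have h30 : L.n1_e t L.q3 = 0 := by omega
  have hsub : (P.S L.ra).erase L.w ⊆ P.S L.q2 := by
    intro v hv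
    rw [Finset.mem_erase] at hv
    have hvt : v ∉ P.S t := fun h => hv.1 (hA v h hv.2)
    have h3 := h2 v
    rw [if_neg (L.n1_outA t hv.2), hcard] at h3
    by_contra hq
    have h4 : ∑ i ∈ univ.filter (fun i => v ∈ P.S i), L.n1_e t i = 0 := by
      refine Finset.sum_eq_zero fun i hi => ?_
      rw [Finset.mem_filter] at hi
      by_cases h5 : i = L.q3
      · rw [h5, h30]
      · exact he i (fun h => hq (h ▸ hi.2)) h5 (fun h => hvt (h ▸ hi.2))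
    rw [h4] at h3
    omega
  have hav2 : L.a ≠ L.v2 := fun h => L.a3 (h ▸ L.n1_v2q3)
  have hsub2 : insert L.a (insert L.v2 ((P.S L.ra).erase L.w)) ⊆ P.S L.q2 := by
    intro x hx
    simp only [Finset.mem_insert] at hx
    rcases hx with rfl | rfl | hx
    · exact L.aq2
    · exact L.v2q2
    · exact hsub hx
  have h5 := Finset.card_le_card hsub2
  rw [Finset.card_insert_of_notMem, Finset.card_insert_of_notMem, Finset.card_erase_of_mem L.wA,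
    P.cardS, P.cardS] at h5
  · have h6 : 0 < al := by
      have := P.cardS L.ra
      rw [← this]
      exact Finset.card_pos.2 ⟨_, L.wA⟩
    omega
  · intro h
    exact L.dAC (Finset.mem_of_mem_erase h) L.v2C
  · intro h
    rw [Finset.mem_insert] at h
    rcases h with h | h
    · exact hav2 h
    · exact P.notS L.ara (Finset.mem_of_mem_erase h)

end LocA

end Pool.Agent.H79S
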