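import Mathlib
import Pool.Agent.Lib.H79S.CL

/-!
# H79S, chunk N2: a stable set meeting `S ra` only in `w` and containing `p` forces `v1 ∈ S rb`

Let `B'' = (C \ F) ∪ (F \ S t)` where `B = S q1, C = S ka, B2 = S rb, C2 = S rc` and
`F = (B ∩ B2) ∪ (C ∩ C2)`, that is
`x ∈ B'' ↔ (x ∈ C ∧ x ∉ C2) ∨ (x ∈ B ∧ x ∈ B2 ∧ x ∉ S t) ∨ (x ∈ C ∧ x ∈ C2 ∧ x ∉ S t)`.
With `d3 = [v1 ∈ B2]` and `dt = [K t contains a vertex of B ∩ B2 (and t ordinary)]`:
`|K m ∩ B''| = 1 + e m`, `e ka = -1, e q2 = 1, e q3 = d3, e t = dt`, `e m = 0` otherwise.  Check by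
`LocA.classify` and `count3`.  Note `a, r ∉ S t` (`eqv` with `p` in `K ra`), `r ∈ C`, `r ∉ C2`
(`r ∈ K rc`) so `r ∈ B''`.
* `q1 = {w, a, b}`: only `b ∈ B''` (`b ∈ C ∩ C2`, `b ∉ S t` by `eqv` with `w`).
* `ra = {a, p, r}`: only `r ∈ B''` (`p ∈ B`, `p ∉ B2`).
* `ka = {a, x, y}`, `y ∈ B ∩ C2`: none.
* `rb = {r, x, y}`, `y ∈ B ∩ C2`: only `r`.
* `rc = {r, x, y}`, `y ∈ B ∩ B2`: `r`, and `y` iff `y ∉ S t`.  If `w ∉ K rc`: `x ∉ S t` by `hA`,
  `r ∉ S t`, and `t ≠ rc` (`w ∈ S ra`, `w ∉ S rc`), so by `meet` `y ∈ S t`: count `1`.  If `w ∈ K rc`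
  then `rc = q3` (`rc ≠ q1, q2`: `b ∈ K q1, K q2`, `b ∈ S rc`) and `x = w`, `y = v1` (`r = v2`,
  as `r ∈ S ka`, `v1 ∈ S q1`): count `2`, and `v1 ∈ B2`, `d3 = 1`.
* ordinary `m` with `w ∈ K m`: `m = q2` (`b, c ∈ F \ S t`: 2), `m = q3` (`v1 ∈ B, v2 ∈ C`, neither in
  `S t` by `eqv` with `w`; `2` if `v1 ∈ B2` (then `v2 ∈ C2`); `1` if not).
  (If `q3 = rb`: then `v1 ∉ B2`, consistent with `d3 = 0`.)
* ordinary `m = {x, y, z}`, `w ∉ K m`: if `y ∈ C2, z ∈ B2`: only `z`.  If `y ∈ B2, z ∈ C2`: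
  `x ∉ S t` (`hA`), and `S t` contains exactly one of `y, z` if `m ≠ t` (`meet`, `eqv`), none
  if `m = t` (`notS`).
Note `t ≠ q1, q2, q3` (`w ∈ S t`), `t ≠ ra` (`p ∈ S t`), `t ≠ ka, rb, rc` (`w ∈ S ra`, disjoint from
`S ka`, `S rb`, `S rc`).
`PSys.recon`: `3 (|B''| - al) = 1 + d3 + dt`, so `d3 + dt = 2`.
-/

set_option autoImplicit false

namespace Pool.Agent.H79S

open Finset

variable {V ι : Type} [Fintype V] [DecidableEq V] [Fintype ι] [DecidableEq ι] {al : ℕ}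

namespace LocA

variable {P : PSys V ι al 3} (L : LocA P)

theorem n2_key (t : ι) (hwt : L.w ∈ P.S t) (hA : ∀ x, x ∈ P.S t → x ∈ P.S L.ra → x = L.w)
    (hpt : L.p ∈ P.S t) (U : Finset V)
    (hU : ∀ x, x ∈ U ↔ (x ∈ P.S L.ka ∧ x ∉ P.S L.rc) ∨
      (x ∈ P.S L.q1 ∧ x ∈ P.S L.rb ∧ x ∉ P.S t) ∨ (x ∈ P.S L.ka ∧ x ∈ P.S L.rc ∧ x ∉ P.S t))
    (d3 : ℤ) (hd3 : d3 = if L.v1 ∈ P.S L.rb then 1 else 0)
    (d : ℤ) (hd : d = if (t ≠ L.q1 ∧ t ≠ L.ra ∧ t ≠ L.ka ∧ t ≠ L.rb ∧ t ≠ L.rc) ∧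
      (∃ y, y ∈ P.K t ∧ y ∈ P.S L.q1 ∧ y ∈ P.S L.rb) then 1 else 0) (m : ι) :
    ((P.K m ∩ U).card : ℤ) = 1 + ((if m = L.ka then -1 else 0) + (if m = L.q2 then 1 else 0) +
      (if m = L.q3 then d3 else 0) + (if m = t then d else 0)) := by
  have hwq1 : L.w ∈ P.K L.q1 := by rw [L.hq1]; simp
  have hwq2 : L.w ∈ P.K L.q2 := by rw [L.hq2]; simp
  have hwq3 : L.w ∈ P.K L.q3 := by rw [L.hq3]; simp
  have hbq1 : L.b ∈ P.K L.q1 := by rw [L.hq1]; simp
  have hbq2 : L.b ∈ P.K L.q2 := by rw [L.hq2]; simp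
  have hcq2 : L.c ∈ P.K L.q2 := by rw [L.hq2]; simp
  have hv1q3 : L.v1 ∈ P.K L.q3 := by rw [L.hq3]; simp
  have hv2q3 : L.v2 ∈ P.K L.q3 := by rw [L.hq3]; simp
  have htq1 : L.q1 ≠ t := by
    intro h
    exact P.notS hwq1 (h ▸ hwt)
  have htq2 : L.q2 ≠ t := by
    intro h
    exact P.notS hwq2 (h ▸ hwt)
  have htq3 : L.q3 ≠ t := by
    intro h
    exact P.notS hwq3 (h ▸ hwt)
  have htra : L.ra ≠ t := by
    intro h
    exact P.notS L.pra (h ▸ hpt)
  have htka : L.ka ≠ t := by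
    intro h
    exact L.dAC L.wA (h ▸ hwt)
  have htrb : L.rb ≠ t := by
    intro h
    exact L.dAB2 L.wA (h ▸ hwt)
  have htrc : L.rc ≠ t := by
    intro h
    exact L.dAC2 L.wA (h ▸ hwt)
  have hr : L.r ∉ P.S t := fun h => L.hpr (P.eqv L.pra hpt L.rra h)
  have hb : L.b ∉ P.S t := fun h => L.hwb (P.eqv hwq1 hwt hbq1 h)
  have haU : L.a ∉ U := by
    rw [hU]
    have h1 : L.a ∉ P.S L.ka := P.notS L.aka
    have h2 : L.a ∉ P.S L.q1 := P.notS L.aq1
    tauto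
  have hrU : L.r ∈ U := by
    rw [hU]
    left
    exact ⟨L.rC, P.notS L.rrc⟩
  have hxU : ∀ x, x ∈ P.S L.ra → x ∉ U := by
    intro x hx
    rw [hU]
    have h1 : x ∉ P.S L.q1 := fun h => L.dAB hx h
    have h2 : x ∉ P.S L.ka := fun h => L.dAC hx h
    tauto
  have hBC2 : ∀ y, y ∈ P.S L.q1 → y ∈ P.S L.rc → y ∉ U := by
    intro y h1 h2
    rw [hU]
    have h3 : y ∉ P.S L.ka := fun h => L.dBC h1 h
    have h4 : y ∉ P.S L.rb := fun h => L.dB2C2 h h2
    tauto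
  have hCB2 : ∀ y, y ∈ P.S L.ka → y ∈ P.S L.rb → y ∈ U := by
    intro y h1 h2
    rw [hU]
    left
    exact ⟨h1, fun h => L.dB2C2 h2 h⟩
  have hBB2 : ∀ y, y ∈ P.S L.q1 → y ∈ P.S L.rb → (y ∈ U ↔ y ∉ P.S t) := by
    intro y h1 h2
    rw [hU]
    have h3 : y ∉ P.S L.ka := fun h => L.dBC h1 h
    tauto
  have hCC2 : ∀ y, y ∈ P.S L.ka → y ∈ P.S L.rc → (y ∈ U ↔ y ∉ P.S t) := by
    intro y h1 h2
    rw [hU]
    have h3 : y ∉ P.S L.q1 := fun h => L.dBC h h1
    tauto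
  have nkq2 : L.ka ≠ L.q2 := fun h => P.notS hbq2 (h ▸ L.bC)
  have nkq3 : L.ka ≠ L.q3 := fun h => P.notS hv2q3 (h ▸ L.v2C)
  rcases L.classify m with h | h | ⟨h, x, y, hK, n1, n2, n3, hx, hy, hy'⟩ |
    ⟨h, x, y, hK, n1, n2, n3, hx, hy, hy'⟩ | ⟨h, x, y, hK, n1, n2, n3, hx, hy, hy'⟩ |
    ⟨m1, m2, m3, m4, m5, x, y, z, hK, n1, n2, n3, hx, hy, hz, hc⟩
  · -- q1
    subst h
    rw [L.hq1, count3 L.hwa L.hwb L.hab, if_neg L.n1k, if_neg L.n12, if_neg L.n13, if_neg htq1,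
      if_neg (hxU _ L.wA), if_neg haU, if_pos (by rw [hCC2 _ L.bC L.bC2]; exact hb)]
    norm_num
  · -- ra
    subst h
    have g2 : L.ra ≠ L.q2 := fun h => P.notS hwq2 (h ▸ L.wA)
    have g3 : L.ra ≠ L.q3 := fun h => P.notS hwq3 (h ▸ L.wA)
    rw [L.hra, count3 L.hap L.har L.hpr, if_neg L.nrak, if_neg g2, if_neg g3, if_neg htra, if_neg haU,
      if_neg (hBC2 _ L.pB L.pC2), if_pos hrU]
    norm_num
  · -- ka
    subst h
    rw [hK, count3 n1 n2 n3, if_pos rfl, if_neg nkq2, if_neg nkq3, if_neg htka, if_neg haU,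
      if_neg (hxU _ hx), if_neg (hBC2 _ hy hy')]
    norm_num
  · -- rb
    subst h
    have g1 : L.rb ≠ L.ka := fun h => P.notS L.rrb (h ▸ L.rC)
    have g2 : L.rb ≠ L.q2 := fun h => P.notS hcq2 (h ▸ L.cB2)
    rw [hK, count3 n1 n2 n3, if_neg g1, if_neg g2, if_neg htrb, if_pos hrU,
      if_neg (hxU _ hx), if_neg (hBC2 _ hy hy')]
    by_cases g3 : L.rb = L.q3
    · have h7 : L.v1 ∉ P.S L.rb := by
        intro h
        rw [g3] at h
        exact P.notS hv1q3 h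
      rw [if_pos g3, hd3, if_neg h7]
      norm_num
    · rw [if_neg g3]
      norm_num
  · -- rc
    subst h
    have g1 : L.rc ≠ L.ka := fun h => P.notS L.rrc (h ▸ L.rC)
    have g2 : L.rc ≠ L.q2 := fun h => P.notS hbq2 (h ▸ L.bC2)
    have g0 : L.rc ≠ L.q1 := fun h => P.notS hbq1 (h ▸ L.bC2)
    have hyK : y ∈ P.K L.rc := by rw [hK]; simp
    by_cases g3 : L.rc = L.q3
    · have hwrc : L.w ∈ P.K L.rc := by rw [g3]; exact hwq3
      have hyt : y ∉ P.S t := by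
        intro h
        have h1 := P.eqv hyK h hwrc hwt
        rw [h1] at hy
        exact L.dAB L.wA hy
      have hyv : y = L.v1 := by
        refine P.eqv hyK hy ?_ L.v1B
        rw [g3]
        exact hv1q3
      have hv1 : L.v1 ∈ P.S L.rb := hyv ▸ hy'
      rw [hK, count3 n1 n2 n3, if_neg g1, if_neg g2, if_pos g3, if_neg htrc, if_pos hrU,
        if_neg (hxU _ hx), if_pos ((hBB2 _ hy hy').mpr hyt), hd3, if_pos hv1]
      norm_num
    · have hwrc : L.w ∉ P.K L.rc := by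
        intro h
        rcases L.atw _ h with h | h | h
        · exact g0 h
        · exact g2 h
        · exact g3 h
      have hyt : y ∈ P.S t := by
        obtain ⟨u, hu1, hu2⟩ := P.meet htrc
        have hu1' := hu1
        rw [hK] at hu1'
        simp only [Finset.mem_insert, Finset.mem_singleton] at hu1'
        rcases hu1' with rfl | rfl | rfl
        · exact absurd hu2 hr
        · have h8 := hA _ hu2 hx
          rw [h8] at hu1
          exact absurd hu1 hwrc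
        · exact hu2
      have hyU : y ∉ U := by
        rw [hBB2 _ hy hy']
        exact fun h => h hyt
      rw [hK, count3 n1 n2 n3, if_neg g1, if_neg g2, if_neg g3, if_neg htrc, if_pos hrU,
        if_neg (hxU _ hx), if_neg hyU]
      norm_num
  · -- ordinary
    have hxK : x ∈ P.K m := by rw [hK]; simp
    have hyK : y ∈ P.K m := by rw [hK]; simp
    have hzK : z ∈ P.K m := by rw [hK]; simp
    by_cases hwm : L.w ∈ P.K m
    · have hmt : m ≠ t := by
        intro h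
        exact P.notS hwm (h ▸ hwt)
      have hyt : y ∉ P.S t := by
        intro h
        have h1 := P.eqv hyK h hwm hwt
        rw [h1] at hy
        exact L.dAB L.wA hy
      have hzt : z ∉ P.S t := by
        intro h
        have h1 := P.eqv hzK h hwm hwt
        rw [h1] at hz
        exact L.dAC L.wA hz
      rcases L.atw m hwm with h | h | h
      · exact absurd h m1
      · -- q2
        have hyc : y = L.c := P.eqv hyK hy (by rw [h]; exact hcq2) L.cB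
        have hyB2 : y ∈ P.S L.rb := by rw [hyc]; exact L.cB2
        have hzC2 : z ∈ P.S L.rc := by
          rcases hc with ⟨-, h9⟩ | ⟨h9, -⟩
          · exact h9
          · exact (L.dB2C2 hyB2 h9).elim
        have hm3 : m ≠ L.q3 := by rw [h]; exact L.n23
        rw [hK, count3 n1 n2 n3, if_neg m3, if_pos h, if_neg hm3, if_neg hmt, if_neg (hxU _ hx),
          if_pos ((hBB2 _ hy hyB2).mpr hyt), if_pos ((hCC2 _ hz hzC2).mpr hzt)]
        norm_num
      · -- q3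
        have hyv : y = L.v1 := P.eqv hyK hy (by rw [h]; exact hv1q3) L.v1B
        have hm2 : m ≠ L.q2 := by rw [h]; exact L.n23.symm
        rcases hc with ⟨hc1, hc2⟩ | ⟨hc1, hc2⟩
        · have hv1 : L.v1 ∈ P.S L.rb := hyv ▸ hc1
          rw [hK, count3 n1 n2 n3, if_neg m3, if_neg hm2, if_pos h, if_neg hmt, if_neg (hxU _ hx),
            if_pos ((hBB2 _ hy hc1).mpr hyt), if_pos ((hCC2 _ hz hc2).mpr hzt), hd3, if_pos hv1]
          norm_num
        · have hv1 : L.v1 ∉ P.S L.rb := by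
            intro h9
            rw [← hyv] at h9
            exact L.dB2C2 h9 hc1
          rw [hK, count3 n1 n2 n3, if_neg m3, if_neg hm2, if_pos h, if_neg hmt, if_neg (hxU _ hx),
            if_neg (hBC2 _ hy hc1), if_pos (hCB2 _ hz hc2), hd3, if_neg hv1]
          norm_num
    · have hm2 : m ≠ L.q2 := by
        rintro rfl
        exact hwm hwq2
      have hm3 : m ≠ L.q3 := by
        rintro rfl
        exact hwm hwq3
      rw [hK, count3 n1 n2 n3, if_neg m3, if_neg hm2, if_neg hm3, if_neg (hxU _ hx)]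
      rcases hc with ⟨hc1, hc2⟩ | ⟨hc1, hc2⟩
      · by_cases h5 : m = t
        · have hd1 : d = 1 := by
            rw [hd, if_pos]
            subst h5
            exact ⟨⟨m1, m2, m3, m4, m5⟩, y, hyK, hy, hc1⟩
          have hy1 : y ∉ P.S t := by
            rw [← h5]
            exact P.notS hyK
          have hz1 : z ∉ P.S t := by
            rw [← h5]
            exact P.notS hzK
          rw [if_pos h5, hd1, if_pos ((hBB2 _ hy hc1).mpr hy1), if_pos ((hCC2 _ hz hc2).mpr hz1)]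
          norm_num
        · rw [if_neg h5]
          obtain ⟨u, hu1, hu2⟩ := P.meet h5
          have hu1' := hu1
          rw [hK] at hu1'
          simp only [Finset.mem_insert, Finset.mem_singleton] at hu1'
          rcases hu1' with rfl | rfl | rfl
          · have h8 := hA _ hu2 hx
            rw [h8] at hu1
            exact absurd hu1 hwm
          · rw [if_neg, if_pos]
            · norm_num
            · rw [hCC2 _ hz hc2]
              intro h6
              exact n3 (P.eqv hu1 hu2 hzK h6)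
            · rw [hBB2 _ hy hc1]
              exact fun h6 => h6 hu2
          · rw [if_pos, if_neg]
            · norm_num
            · rw [hCC2 _ hz hc2]
              exact fun h6 => h6 hu2
            · rw [hBB2 _ hy hc1]
              intro h6
              exact n3 (P.eqv hyK h6 hu1 hu2)
      · rw [if_neg (hBC2 _ hy hc1), if_pos (hCB2 _ hz hc2)]
        by_cases h5 : m = t
        · have hd0 : d = 0 := by
            rw [hd, if_neg]
            rintro ⟨_, v, hv, hv1, hv2⟩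
            rw [← h5, hK] at hv
            simp only [Finset.mem_insert, Finset.mem_singleton] at hv
            rcases hv with rfl | rfl | rfl
            · exact L.dAB hx hv1
            · exact L.dB2C2 hv2 hc1
            · exact L.dBC hv1 hz
          rw [if_pos h5, hd0]
          norm_num
        · rw [if_neg h5]
          norm_num

theorem pV (t : ι) (hwt : L.w ∈ P.S t) (hA : ∀ x, x ∈ P.S t → x ∈ P.S L.ra → x = L.w)
    (hpt : L.p ∈ P.S t) : L.v1 ∈ P.S L.rb := by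
  classical
  obtain ⟨U, hU⟩ : ∃ U : Finset V, ∀ x, x ∈ U ↔ (x ∈ P.S L.ka ∧ x ∉ P.S L.rc) ∨
      (x ∈ P.S L.q1 ∧ x ∈ P.S L.rb ∧ x ∉ P.S t) ∨ (x ∈ P.S L.ka ∧ x ∈ P.S L.rc ∧ x ∉ P.S t) :=
    ⟨univ.filter (fun x => (x ∈ P.S L.ka ∧ x ∉ P.S L.rc) ∨
      (x ∈ P.S L.q1 ∧ x ∈ P.S L.rb ∧ x ∉ P.S t) ∨ (x ∈ P.S L.ka ∧ x ∈ P.S L.rc ∧ x ∉ P.S t)),
      fun x => by simp⟩
  obtain ⟨d3, hd3⟩ : ∃ d3 : ℤ, d3 = if L.v1 ∈ P.S L.rb then 1 else 0 := ⟨_, rfl⟩
  obtain ⟨d, hd⟩ : ∃ d : ℤ, d = if (t ≠ L.q1 ∧ t ≠ L.ra ∧ t ≠ L.ka ∧ t ≠ L.rb ∧ t ≠ L.rc) ∧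
      (∃ y, y ∈ P.K t ∧ y ∈ P.S L.q1 ∧ y ∈ P.S L.rb) then 1 else 0 := ⟨_, rfl⟩
  obtain ⟨r1, -⟩ := P.recon U
    (fun m => (if m = L.ka then -1 else 0) + (if m = L.q2 then 1 else 0) +
      (if m = L.q3 then d3 else 0) + (if m = t then d else 0))
    (fun m => L.n2_key t hwt hA hpt U hU d3 (by rw [hd3]) d (by rw [hd]) m)
  have hd01 : d = 0 ∨ d = 1 := by
    rw [hd]
    split_ifs <;> simp
  have hsum : ∑ m : ι, ((if m = L.ka then (-1 : ℤ) else 0) + (if m = L.q2 then 1 else 0) +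
      (if m = L.q3 then d3 else 0) + (if m = t then d else 0)) = d3 + d := by
    rw [Finset.sum_add_distrib, Finset.sum_add_distrib, Finset.sum_add_distrib, Finset.sum_ite_eq',
      Finset.sum_ite_eq', Finset.sum_ite_eq', Finset.sum_ite_eq', if_pos (Finset.mem_univ _),
      if_pos (Finset.mem_univ _), if_pos (Finset.mem_univ _), if_pos (Finset.mem_univ _)]
    ring
  rw [hsum] at r1
  by_contra hcon
  rw [hd3, if_neg hcon] at r1
  push_cast at r1
  rcases hd01 with h | h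
  · rw [h] at r1
    omega
  · rw [h] at r1
    omega

end LocA

end Pool.Agent.H79S
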