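import Mathlib
import Pool.Agent.Lib.H79S.CL

/-!
# H79S, chunk N3: a stable set through `a` disjoint from `S ra` contains `v1` (if `v1 ∈ S rb`)

Let `U = (B \ F) ∪ (F ∩ S t)` where `B = S q1, C = S ka, B2 = S rb, C2 = S rc` and
`F = (B ∩ B2) ∪ (C ∩ C2)`, that is
`x ∈ U ↔ (x ∈ B ∧ x ∉ B2) ∨ (x ∈ B ∧ x ∈ B2 ∧ x ∈ S t) ∨ (x ∈ C ∧ x ∈ C2 ∧ x ∈ S t)`.
With `dt = [t is ordinary (not q1, ra, ka, rb, rc) and K t contains a vertex of B ∩ B2]`:
`|K m ∩ U| = 1 + e m`, `e q1 = -1, e t = -dt`, `e m = 0` otherwise.  Check by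
`LocA.classify` and `count3`.  Note `w, b, p, r ∉ S t` (`eqv` with `a`).
* `q1 = {w, a, b}`: none (`b ∈ C ∩ C2`, `b ∉ S t`).
* `ra = {a, p, r}`: only `p` (`p ∈ B`, `p ∉ B2`).
* `ka = {a, x, y}`, `y ∈ B ∩ C2`: only `y`.
* `rb = {r, x, y}`, `y ∈ B ∩ C2`: only `y`.
* `rc = {r, x, y}`, `y ∈ B ∩ B2`: `y ∈ S t`: `t ≠ rc` (`a ∈ S rb`, `a ∉ S rc`), `r ∉ S t`,
  `x ∉ S t` (`hA`), so by `meet` `y ∈ S t`: count `1`.
* ordinary `m = {x, y, z}`: if `y ∈ C2, z ∈ B2`: only `y`.  If `y ∈ B2, z ∈ C2`: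
  `x ∉ S t` (`hA`), and `S t` contains exactly one of `y, z` if `m ≠ t` (`meet`, `eqv`), none
  if `m = t` (`notS`).
`PSys.recon`: `3 (|U| - al) = -dt`, so `dt = 0`, `|U| = al`, and `[v ∈ U] = [v ∈ S q1]` for all `v`.
As `v1 ∈ S q1`, `v1 ∈ U`; as `v1 ∈ S rb`, `v1 ∈ S t` (`v1 ∉ S ka`).
-/

set_option autoImplicit false

namespace Pool.Agent.H79S

open Finset

variable {V ι : Type} [Fintype V] [DecidableEq V] [Fintype ι] [DecidableEq ι] {al : ℕ}

namespace LocA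

variable {P : PSys V ι al 3} (L : LocA P)

theorem n3_key (t : ι) (hat : L.a ∈ P.S t) (hA : ∀ x, x ∈ P.S t → x ∉ P.S L.ra) (U : Finset V)
    (hU : ∀ x, x ∈ U ↔ (x ∈ P.S L.q1 ∧ x ∉ P.S L.rb) ∨
      (x ∈ P.S L.q1 ∧ x ∈ P.S L.rb ∧ x ∈ P.S t) ∨ (x ∈ P.S L.ka ∧ x ∈ P.S L.rc ∧ x ∈ P.S t))
    (d : ℤ) (hd : d = if (t ≠ L.q1 ∧ t ≠ L.ra ∧ t ≠ L.ka ∧ t ≠ L.rb ∧ t ≠ L.rc) ∧
      (∃ y, y ∈ P.K t ∧ y ∈ P.S L.q1 ∧ y ∈ P.S L.rb) then 1 else 0) (m : ι) :
    ((P.K m ∩ U).card : ℤ) = 1 + ((if m = L.q1 then -1 else 0) + (if m = t then -d else 0)) := by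
  have htq1 : t ≠ L.q1 := by
    rintro rfl
    exact P.notS L.aq1 hat
  have htra : t ≠ L.ra := by
    rintro rfl
    exact P.notS L.ara hat
  have htka : t ≠ L.ka := by
    rintro rfl
    exact P.notS L.aka hat
  have htrc : t ≠ L.rc := by
    rintro rfl
    exact L.dB2C2 L.aB2 hat
  have hr : L.r ∉ P.S t := fun h => L.har (P.eqv L.ara hat L.rra h)
  have hp : L.p ∉ P.S t := fun h => L.hap (P.eqv L.ara hat L.pra h)
  have hbq : L.b ∈ P.K L.q1 := by rw [L.hq1]; simp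
  have hwq : L.w ∈ P.K L.q1 := by rw [L.hq1]; simp
  have hb : L.b ∉ P.S t := fun h => L.hab (P.eqv L.aq1 hat hbq h)
  have hw : L.w ∉ P.S t := fun h => L.hwa (P.eqv hwq h L.aq1 hat)
  have ha1 : L.a ∉ P.S L.q1 := P.notS L.aq1
  have hak : L.a ∉ P.S L.ka := P.notS L.aka
  have haU : L.a ∉ U := by
    rw [hU]
    tauto
  have hrU : L.r ∉ U := by
    rw [hU]
    have h1 : L.r ∉ P.S L.q1 := fun h => L.dBC h L.rC
    tauto
  have hxU : ∀ x, x ∈ P.S L.ra → x ∉ U := by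
    intro x hx
    rw [hU]
    have h1 : x ∉ P.S L.q1 := fun h => L.dAB hx h
    have h2 : x ∉ P.S L.ka := fun h => L.dAC hx h
    tauto
  -- vertices in B ∩ C2
  have hBC2 : ∀ y, y ∈ P.S L.q1 → y ∈ P.S L.rc → y ∈ U := by
    intro y h1 h2
    rw [hU]
    left
    exact ⟨h1, fun h => L.dB2C2 h h2⟩
  have hCB2 : ∀ y, y ∈ P.S L.ka → y ∈ P.S L.rb → y ∉ U := by
    intro y h1 h2
    rw [hU]
    have h3 : y ∉ P.S L.q1 := fun h => L.dBC h h1
    have h4 : y ∉ P.S L.rc := fun h => L.dB2C2 h2 h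
    tauto
  have hBB2 : ∀ y, y ∈ P.S L.q1 → y ∈ P.S L.rb → (y ∈ U ↔ y ∈ P.S t) := by
    intro y h1 h2
    rw [hU]
    tauto
  have hCC2 : ∀ y, y ∈ P.S L.ka → y ∈ P.S L.rc → (y ∈ U ↔ y ∈ P.S t) := by
    intro y h1 h2
    rw [hU]
    have h3 : y ∉ P.S L.q1 := fun h => L.dBC h h1
    tauto
  rcases L.classify m with h | h | ⟨h, x, y, hK, n1, n2, n3, hx, hy, hy'⟩ |
    ⟨h, x, y, hK, n1, n2, n3, hx, hy, hy'⟩ | ⟨h, x, y, hK, n1, n2, n3, hx, hy, hy'⟩ |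
    ⟨m1, m2, m3, m4, m5, x, y, z, hK, n1, n2, n3, hx, hy, hz, hc⟩
  · -- q1
    subst h
    rw [L.hq1, count3 L.hwa L.hwb L.hab, if_pos rfl, if_neg htq1.symm, if_neg (hxU _ L.wA),
      if_neg haU, if_neg (by rw [hCC2 _ L.bC L.bC2]; exact hb)]
    norm_num
  · subst h
    rw [L.hra, count3 L.hap L.har L.hpr, if_neg L.nra1, if_neg htra.symm, if_neg haU,
      if_pos (hBC2 _ L.pB L.pC2), if_neg hrU]
    norm_num
  · subst h
    rw [hK, count3 n1 n2 n3, if_neg L.n1k.symm, if_neg htka.symm, if_neg haU,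
      if_neg (hxU _ hx), if_pos (hBC2 _ hy hy')]
    norm_num
  · subst h
    have hq : L.rb ≠ L.q1 := by
      intro h
      have := L.aB2
      rw [h] at this
      exact ha1 this
    rw [hK, count3 n1 n2 n3, if_neg hq, if_neg hrU,
      if_neg (hxU _ hx), if_pos (hBC2 _ hy hy')]
    by_cases h5 : L.rb = t
    · have hd0 : d = 0 := by
        rw [hd, if_neg]
        rintro ⟨⟨_, _, _, h6, _⟩, _⟩
        exact h6 h5.symm
      rw [if_pos h5, hd0]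
      norm_num
    · rw [if_neg h5]
      norm_num
  · subst h
    have hq : L.rc ≠ L.q1 := by
      intro h
      have h7 := L.bC2
      rw [h] at h7
      exact P.notS hbq h7
    have hyt : y ∈ P.S t := by
      obtain ⟨u, hu1, hu2⟩ := P.meet htrc.symm
      rw [hK] at hu1
      simp only [Finset.mem_insert, Finset.mem_singleton] at hu1
      rcases hu1 with rfl | rfl | rfl
      · exact absurd hu2 hr
      · exact absurd hx (hA _ hu2)
      · exact hu2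
    rw [hK, count3 n1 n2 n3, if_neg hq, if_neg htrc.symm, if_neg hrU,
      if_neg (hxU _ hx), if_pos ((hBB2 _ hy hy').mpr hyt)]
    norm_num
  · rw [hK, count3 n1 n2 n3, if_neg m1, if_neg (hxU _ hx)]
    rcases hc with ⟨hc1, hc2⟩ | ⟨hc1, hc2⟩
    · by_cases h5 : m = t
      · subst h5
        have hy1 : y ∉ P.S m := P.notS (by rw [hK]; simp)
        have hz1 : z ∉ P.S m := P.notS (by rw [hK]; simp)
        have hd1 : d = 1 := by
          rw [hd, if_pos]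
          exact ⟨⟨m1, m2, m3, m4, m5⟩, y, by rw [hK]; simp, hy, hc1⟩
        rw [if_pos rfl, hd1, if_neg (by rw [hBB2 _ hy hc1]; exact hy1),
          if_neg (by rw [hCC2 _ hz hc2]; exact hz1)]
        norm_num
      · rw [if_neg h5]
        obtain ⟨u, hu1, hu2⟩ := P.meet h5
        have hu1' := hu1
        rw [hK] at hu1'
        simp only [Finset.mem_insert, Finset.mem_singleton] at hu1'
        rcases hu1' with rfl | rfl | rfl
        · exact absurd hx (hA _ hu2)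
        · rw [if_pos ((hBB2 _ hy hc1).mpr hu2), if_neg]
          · norm_num
          · rw [hCC2 _ hz hc2]
            intro h6
            exact n3 (P.eqv hu1 hu2 (by rw [hK]; simp) h6)
        · rw [if_pos ((hCC2 _ hz hc2).mpr hu2), if_neg]
          · norm_num
          · rw [hBB2 _ hy hc1]
            intro h6
            exact n3 (P.eqv (by rw [hK]; simp) h6 hu1 hu2)
    · rw [if_pos (hBC2 _ hy hc1), if_neg (hCB2 _ hz hc2)]
      by_cases h5 : m = t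
      · have hd0 : d = 0 := by
          rw [hd, if_neg]
          rintro ⟨_, v, hv, hv1, hv2⟩
          rw [← h5, hK] at hv
          simp only [Finset.mem_insert, Finset.mem_singleton] at hv
          rcases hv with rfl | rfl | rfl
          · exact L.dAB hx hv1
          · exact L.dB2C2 hv2 hc1
          · exact L.dBC hv1 hz
        rw [if_pos h5, hd0]
        norm_num
      · rw [if_neg h5]
        norm_num

theorem aV (t : ι) (hat : L.a ∈ P.S t) (hA : ∀ x, x ∈ P.S t → x ∉ P.S L.ra)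
    (h1 : L.v1 ∈ P.S L.rb) : L.v1 ∈ P.S t := by
  classical
  obtain ⟨U, hU⟩ : ∃ U : Finset V, ∀ x, x ∈ U ↔ (x ∈ P.S L.q1 ∧ x ∉ P.S L.rb) ∨
      (x ∈ P.S L.q1 ∧ x ∈ P.S L.rb ∧ x ∈ P.S t) ∨
      (x ∈ P.S L.ka ∧ x ∈ P.S L.rc ∧ x ∈ P.S t) :=
    ⟨univ.filter (fun x => (x ∈ P.S L.q1 ∧ x ∉ P.S L.rb) ∨
      (x ∈ P.S L.q1 ∧ x ∈ P.S L.rb ∧ x ∈ P.S t) ∨
      (x ∈ P.S L.ka ∧ x ∈ P.S L.rc ∧ x ∈ P.S t)), fun x => by simp⟩
  obtain ⟨d, hd⟩ : ∃ d : ℤ, d = if (t ≠ L.q1 ∧ t ≠ L.ra ∧ t ≠ L.ka ∧ t ≠ L.rb ∧ t ≠ L.rc) ∧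
      (∃ y, y ∈ P.K t ∧ y ∈ P.S L.q1 ∧ y ∈ P.S L.rb) then 1 else 0 := ⟨_, rfl⟩
  obtain ⟨r1, r2⟩ := P.recon U
    (fun m => (if m = L.q1 then -1 else 0) + (if m = t then -d else 0))
    (fun m => L.n3_key t hat hA U hU d (by rw [hd]) m)
  have hd01 : d = 0 ∨ d = 1 := by
    rw [hd]
    split_ifs <;> simp
  have hsum : ∑ m : ι, ((if m = L.q1 then (-1 : ℤ) else 0) + (if m = t then -d else 0)) = -1 - d := by
    rw [Finset.sum_add_distrib, Finset.sum_ite_eq' , Finset.sum_ite_eq', if_pos (Finset.mem_univ _),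
      if_pos (Finset.mem_univ _)]
    ring
  rw [hsum] at r1
  have hd0 : d = 0 := by
    rcases hd01 with h | h
    · exact h
    · rw [h] at r1
      push_cast at r1
      omega
  rw [hd0] at r1
  have hc : (U.card : ℤ) - al = 0 := by
    push_cast at r1
    omega
  have r3 := r2 L.v1
  rw [hc, hd0] at r3
  have hv : L.v1 ∈ U := by
    by_contra hcon
    rw [if_neg hcon, Finset.sum_add_distrib, Finset.sum_ite_eq'] at r3
    rw [if_pos (by simp [L.v1B])] at r3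
    simp at r3
  rw [hU] at hv
  have h5 : L.v1 ∉ P.S L.ka := fun h => L.dBC L.v1B h
  tauto

end LocA

end Pool.Agent.H79S
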