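import Mathlib
import Pool.Agent.Lib.H79S.N1
import Pool.Agent.Lib.H79S.N2
import Pool.Agent.Lib.H79S.N3

/-!
# H79S, chunk TA: the small transversal in case A

If `v1 ∉ S rb`: `T = (S ra).erase w ∪ {a, b, v1}`; if `v1 ∈ S rb`:
`T = (S ra).erase w ∪ {b, v1, p}`.  Card: `al - 1 + 3`: `a, p ∈ K ra`, `b ∈ S ka`, `v1 ∈ S q1` are not
in `S ra`; `a ≠ b`, `a ≠ v1` (`a ∉ K q3`), `b ≠ v1` (`b ∉ K q3`), `v1 ≠ p` in the second case
(`p ∈ S rc`, `v1 ∈ S rb`), `b ≠ p` (`b ∈ S ka`, `p ∈ S q1`).
Cliques: `w ∈ K m`: `q1, q2 ∋ b`, `q3 ∋ v1`; `m = ra ∋ a, p`; other `m`: `K m` meets `S ra` (`meet`) in a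
vertex `≠ w`.
Stable sets `S t`: if `w ∈ S t`: if `S t` meets `S ra` in a vertex `≠ w` fine; otherwise
(`hA : ∀ x ∈ S t, x ∈ S ra → x = w`), `t ≠ ra` because `al ≥ 2`, so `K ra` meets `S t` (`meet`) in `a`
(no: `eqv` with `w` in `K q1`), `r` (no: `noR`) or `p`: then `pV` gives `v1 ∈ S rb`, second case, and
`p ∈ T`.
If `w ∉ S t`: if `t = q1`: `v1`.  Otherwise `K q1` meets `S t` in `a` or `b`; `b ∈ T`; if `a ∈ S t`: in
the first case `a ∈ T`; in the second: if `S t` meets `S ra`, fine (the vertex is not `w`), otherwise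
`aV` gives `v1 ∈ S t`.
-/

set_option autoImplicit false

namespace Pool.Agent.H79S

open Finset

variable {V ι : Type} [Fintype V] [DecidableEq V] [Fintype ι] [DecidableEq ι] {al : ℕ}

theorem ta_hit {T U : Finset V} {x : V} (h1 : x ∈ T) (h2 : x ∈ U) : ¬ Disjoint T U :=
  fun h => Finset.disjoint_left.mp h h1 h2

theorem LocA.st {P : PSys V ι al 3} (L : LocA P) (hal : 2 ≤ al) : ∃ T, P.IsST T := by
  have hwq1 : L.w ∈ P.K L.q1 := by rw [L.hq1]; simp
  have hbq1 : L.b ∈ P.K L.q1 := by rw [L.hq1]; simp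
  have hbq2 : L.b ∈ P.K L.q2 := by rw [L.hq2]; simp
  have hv1q3 : L.v1 ∈ P.K L.q3 := by rw [L.hq3]; simp
  have hcard : ((P.S L.ra).erase L.w).card = al - 1 := by
    rw [Finset.card_erase_of_mem L.wA, P.cardS]
  have na : L.a ∉ P.S L.ra := P.notS L.ara
  have nb : L.b ∉ P.S L.ra := fun h => L.dAC h L.bC
  have nv : L.v1 ∉ P.S L.ra := fun h => L.dAB h L.v1B
  have np : L.p ∉ P.S L.ra := P.notS L.pra
  have hbv : L.b ≠ L.v1 := fun h => L.b3 (h ▸ hv1q3)
  have hav : L.a ≠ L.v1 := fun h => L.a3 (h ▸ hv1q3)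
  have hbp : L.b ≠ L.p := fun h => L.dBC (h ▸ L.pB) L.bC
  -- the case w in S t
  have hw : ∀ t, L.w ∈ P.S t → (∃ x, x ∈ P.S t ∧ x ∈ P.S L.ra ∧ x ≠ L.w) ∨
      (L.p ∈ P.S t ∧ L.v1 ∈ P.S L.rb) := by
    intro t hwt
    by_cases h : ∃ x, x ∈ P.S t ∧ x ∈ P.S L.ra ∧ x ≠ L.w
    · exact Or.inl h
    · right
      have hA : ∀ x, x ∈ P.S t → x ∈ P.S L.ra → x = L.w := by
        intro x h1 h2
        by_contra h3
        exact h ⟨x, h1, h2, h3⟩
      have ht : L.ra ≠ t := by
        rintro rfl
        have h1 : P.S L.ra ⊆ {L.w} := fun x hx => by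
          rw [Finset.mem_singleton]
          exact hA x hx hx
        have h2 := Finset.card_le_card h1
        rw [P.cardS, Finset.card_singleton] at h2
        omega
      obtain ⟨x, hx1, hx2⟩ := P.meet ht
      rw [L.hra] at hx1
      simp only [Finset.mem_insert, Finset.mem_singleton] at hx1
      rcases hx1 with rfl | rfl | rfl
      · exact absurd (P.eqv hwq1 hwt L.aq1 hx2) L.hwa
      · exact ⟨hx2, L.pV t hwt hA hx2⟩
      · exact (L.noR t hwt hA hx2).elim
  by_cases hv : L.v1 ∈ P.S L.rb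
  · refine ⟨insert L.b (insert L.v1 (insert L.p ((P.S L.ra).erase L.w))), ?_, ?_, ?_⟩
    · have hvp : L.v1 ≠ L.p := fun h => L.dB2C2 hv (h ▸ L.pC2)
      rw [Finset.card_insert_of_notMem, Finset.card_insert_of_notMem, Finset.card_insert_of_notMem, hcard]
      · omega
      · simp [np]
      · simp [hvp, nv]
      · simp [hbv, hbp, nb]
    · intro m
      by_cases hm : L.w ∈ P.K m
      · rcases L.atw m hm with rfl | rfl | rfl
        · exact ta_hit (x := L.b) (by simp) hbq1
        · exact ta_hit (x := L.b) (by simp) hbq2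
        · exact ta_hit (x := L.v1) (by simp) hv1q3
      · by_cases hmr : m = L.ra
        · subst hmr
          exact ta_hit (x := L.p) (by simp) L.pra
        · obtain ⟨x, hx1, hx2⟩ := P.meet hmr
          have hxw : x ≠ L.w := fun h => hm (h ▸ hx1)
          exact ta_hit (x := x) (by simp [hx2, hxw]) hx1
    · intro t
      by_cases hwt : L.w ∈ P.S t
      · rcases hw t hwt with ⟨x, h1, h2, h3⟩ | ⟨h1, -⟩
        · exact ta_hit (x := x) (by simp [h2, h3]) h1
        · exact ta_hit (x := L.p) (by simp) h1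
      · by_cases ht : L.q1 = t
        · subst ht
          exact ta_hit (x := L.v1) (by simp) L.v1B
        · obtain ⟨x, hx1, hx2⟩ := P.meet ht
          rw [L.hq1] at hx1
          simp only [Finset.mem_insert, Finset.mem_singleton] at hx1
          rcases hx1 with rfl | rfl | rfl
          · exact absurd hx2 hwt
          · by_cases h : ∃ x, x ∈ P.S t ∧ x ∈ P.S L.ra
            · obtain ⟨x, h1, h2⟩ := h
              have hxw : x ≠ L.w := fun h => hwt (h ▸ h1)
              exact ta_hit (x := x) (by simp [h2, hxw]) h1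
            · have h1 := L.aV t hx2 (fun x h1 h2 => h ⟨x, h1, h2⟩) hv
              exact ta_hit (x := L.v1) (by simp) h1
          · exact ta_hit (x := L.b) (by simp) hx2
  · refine ⟨insert L.a (insert L.b (insert L.v1 ((P.S L.ra).erase L.w))), ?_, ?_, ?_⟩
    · rw [Finset.card_insert_of_notMem, Finset.card_insert_of_notMem, Finset.card_insert_of_notMem, hcard]
      · omega
      · simp [nv]
      · simp [hbv, nb]
      · simp [L.hab, hav, na]
    · intro m
      by_cases hm : L.w ∈ P.K m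
      · rcases L.atw m hm with rfl | rfl | rfl
        · exact ta_hit (x := L.b) (by simp) hbq1
        · exact ta_hit (x := L.b) (by simp) hbq2
        · exact ta_hit (x := L.v1) (by simp) hv1q3
      · by_cases hmr : m = L.ra
        · subst hmr
          exact ta_hit (x := L.a) (by simp) L.ara
        · obtain ⟨x, hx1, hx2⟩ := P.meet hmr
          have hxw : x ≠ L.w := fun h => hm (h ▸ hx1)
          exact ta_hit (x := x) (by simp [hx2, hxw]) hx1
    · intro t
      by_cases hwt : L.w ∈ P.S t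
      · rcases hw t hwt with ⟨x, h1, h2, h3⟩ | ⟨-, h1⟩
        · exact ta_hit (x := x) (by simp [h2, h3]) h1
        · exact absurd h1 hv
      · by_cases ht : L.q1 = t
        · subst ht
          exact ta_hit (x := L.v1) (by simp) L.v1B
        · obtain ⟨x, hx1, hx2⟩ := P.meet ht
          rw [L.hq1] at hx1
          simp only [Finset.mem_insert, Finset.mem_singleton] at hx1
          rcases hx1 with rfl | rfl | rfl
          · exact absurd hx2 hwt
          · exact ta_hit (x := L.a) (by simp) hx2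
          · exact ta_hit (x := L.b) (by simp) hx2

end Pool.Agent.H79S
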