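import Mathlib
import Pool.Agent.Lib.H79S.LE
import Pool.Agent.Lib.H79S.TA
import Pool.Agent.Lib.H79S.CB
import Pool.Agent.Lib.H79S.M1
import Pool.Agent.Lib.H79S.M2
import Pool.Agent.Lib.H79S.M3
import Pool.Agent.Lib.H79S.M4

/-!
# H79S: assembly of the theorem
-/

set_option autoImplicit false

namespace Pool.Agent.H79S

open Finset

theorem core {V ι : Type} [Fintype V] [DecidableEq V] [Fintype ι] [DecidableEq ι] {al : ℕ}
    (P : PSys V ι al 3) (hal : 3 ≤ al)
    (hex : ∃ i j u v, i ≠ j ∧ u ≠ v ∧ u ∈ P.K i ∧ v ∈ P.K i ∧ u ∈ P.K j ∧ v ∈ P.K j) :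
    ∃ T, P.IsST T := by
  by_cases h : ∀ (q : ι) (w a b : V), P.K q = {w, a, b} → w ≠ a → w ≠ b → a ≠ b →
      (∃ m, m ≠ q ∧ w ∈ P.K m ∧ b ∈ P.K m) →
      (∃ m, m ≠ q ∧ w ∈ P.K m ∧ a ∈ P.K m) ∨ (∃ m, m ≠ q ∧ a ∈ P.K m ∧ b ∈ P.K m)
  · exact caseB P hal hex h
  · push Not at h
    obtain ⟨q, w, a, b, hq, hwa, hwb, hab, ⟨m, hm, hwm, hbm⟩, h1, h2⟩ := h
    obtain ⟨L⟩ := LocA.exists P w a b q m hwa hwb hab hq hm.symm hwm hbm
      (fun n hn hn' => by
        by_contra hne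
        exact h1 n hne hn hn')
      (fun n hn hn' => by
        by_contra hne
        exact h2 n hne hn hn')
    exact L.st (by omega)

/-- the partition property of the frozen statement -/
def Part (V : Type) [Fintype V] (G : SimpleGraph V) (r s : ℕ) : Prop :=
  Fintype.card V = r * s + 1 ∧
        ∀ v : V,
          (∃ P : Fin r → Finset V,
            (∀ i, G.IsNClique s (P i)) ∧
            (∀ i j, i ≠ j → Disjoint (P i) (P j)) ∧
            (∀ i, v ∉ P i) ∧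
            (∀ w : V, w ≠ v → ∃ i, w ∈ P i)) ∧
          (∃ Q : Fin s → Finset V,
            (∀ i, Gᶜ.IsNClique r (Q i)) ∧
            (∀ i j, i ≠ j → Disjoint (Q i) (Q j)) ∧
            (∀ i, v ∉ Q i) ∧
            (∀ w : V, w ≠ v → ∃ i, w ∈ Q i))

theorem clique_stable {V : Type} [DecidableEq V] (G : SimpleGraph V) {m n : ℕ}
    {K S : Finset V} (hK : G.IsNClique m K) (hS : Gᶜ.IsNClique n S) : (K ∩ S).card ≤ 1 := by
  rw [Finset.card_le_one]
  intro x hx y hy
  by_contra hne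
  have h1 := hK.1 (Finset.mem_coe.mpr (Finset.mem_inter.mp hx).1)
    (Finset.mem_coe.mpr (Finset.mem_inter.mp hy).1) hne
  have h2 := hS.1 (Finset.mem_coe.mpr (Finset.mem_inter.mp hx).2)
    (Finset.mem_coe.mpr (Finset.mem_inter.mp hy).2) hne
  exact ((SimpleGraph.compl_adj G x y).mp h2).2 h1

theorem psys_of_part {V : Type} [Fintype V] [DecidableEq V] (G : SimpleGraph V)
    (r s : ℕ) (hr : 0 < r) (hs : 0 < s) (h : Part V G r s) :
    ∃ (ι : Type) (_ : Fintype ι) (_ : DecidableEq ι) (P : PSys V ι r s),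
      (∀ i, G.IsNClique s (P.K i)) ∧ (∀ i, Gᶜ.IsNClique r (P.S i)) ∧
      (∀ K, G.IsNClique s K → ∃ i, K = P.K i) ∧ (∀ S, Gᶜ.IsNClique r S → ∃ i, S = P.S i) := by
  obtain ⟨ι, i1, i2, K, S, hI, hK, hS, dis, one, degS⟩ := exists_family G r s hr hs h.1 h.2
  obtain ⟨degK, uniq⟩ := matrix_step r s hr hs K S h.1 hI dis one degS
  let P : PSys V ι r s :=
    { K := K, S := S, cardK := fun i => (hK i).2, cardS := fun i => (hS i).2, cardV := h.1,
      cardI := hI, dis := dis, one := one, uniq := uniq, degK := degK, degS := degS }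
  refine ⟨ι, i1, i2, P, hK, hS, ?_, ?_⟩
  · intro Q hQ
    exact P.allK Q hQ.2 (fun i => clique_stable G hQ (hS i))
  · intro T hT
    exact P.allS T hT.2 (fun i => clique_stable G (hK i) hT)

/-- the conclusion: a small transversal of the graph -/
def HasST (V : Type) (G : SimpleGraph V) : Prop :=
  ∃ T : Finset V, T.card = Gᶜ.cliqueNum + G.cliqueNum - 1 ∧
    (∀ K : Finset V, G.IsNClique G.cliqueNum K → ¬ Disjoint T K) ∧
    (∀ S : Finset V, Gᶜ.IsNClique Gᶜ.cliqueNum S → ¬ Disjoint T S)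

theorem mainG (V : Type) [Fintype V] (G : SimpleGraph V) (r s : ℕ) (h : Part V G r s)
    (h1 : 2 < Gᶜ.cliqueNum) (h3 : G.cliqueNum = 3)
    (hc : (∃ u v, G.Adj u v ∧ Gᶜ.cliqueNum < ((G.deleteEdges {s(u, v)})ᶜ).cliqueNum) ∨
      (∃ K K' : Finset V, G.IsNClique 3 K ∧ G.IsNClique 3 K' ∧ K ≠ K' ∧
        ∃ x y, x ≠ y ∧ x ∈ K ∧ y ∈ K ∧ x ∈ K' ∧ y ∈ K')) :
    HasST V G := by
  classical
  obtain ⟨e1, e2, hr, hs⟩ := nums G r s h.1 h.2 h1 (by omega)
  have hs3 : s = 3 := by omega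
  subst hs3
  obtain ⟨ι, _, _, P, hK, hS, allK, allS⟩ := psys_of_part G r 3 hr (by omega) h
  have hex : ∃ i j u v, i ≠ j ∧ u ≠ v ∧ u ∈ P.K i ∧ v ∈ P.K i ∧ u ∈ P.K j ∧ v ∈ P.K j := by
    rcases hc with ⟨u, v, huv, hlt⟩ | ⟨K, K', hk, hk', hne, x, y, hxy, hx, hy, hx', hy'⟩
    · rw [e1] at hlt
      have hne : u ≠ v := huv.ne
      obtain ⟨W0, hW0⟩ := ((G.deleteEdges {s(u, v)})ᶜ).exists_isNClique_cliqueNum
      obtain ⟨W, hWs, hWc⟩ := Finset.exists_subset_card_eq (s := W0) (n := r + 1)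
        (by rw [hW0.2]; omega)
      have hW : ∀ x ∈ W, ∀ y ∈ W, x ≠ y → ¬ G.Adj x y ∨ s(x, y) = s(u, v) := by
        intro x hx y hy hxy
        have h5 := hW0.1 (Finset.mem_coe.mpr (hWs hx)) (Finset.mem_coe.mpr (hWs hy)) hxy
        rw [SimpleGraph.compl_adj] at h5
        by_contra h6
        push Not at h6
        apply h5.2
        rw [SimpleGraph.deleteEdges_adj]
        exact ⟨h6.1, fun h7 => h6.2 (by simpa using h7)⟩
      -- a subset of `W` missing `u` or `v` is stable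
      have hst : ∀ z, (z = u ∨ z = v) → Gᶜ.IsClique (↑(W.erase z) : Set V) := by
        intro z hz x hx y hy hxy
        rw [SimpleGraph.compl_adj]
        refine ⟨hxy, ?_⟩
        have hx' := Finset.mem_erase.mp (Finset.mem_coe.mp hx)
        have hy' := Finset.mem_erase.mp (Finset.mem_coe.mp hy)
        rcases hW x hx'.2 y hy'.2 hxy with h6 | h6
        · exact h6
        · exfalso
          rw [Sym2.eq_iff] at h6
          rcases h6 with ⟨h7, h8⟩ | ⟨h7, h8⟩ <;> rcases hz with rfl | rfl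
          · exact hx'.1 h7
          · exact hy'.1 h8
          · exact hy'.1 h8
          · exact hx'.1 h7
      have hmem : ∀ z, (z = u ∨ z = v) → z ∈ W := by
        intro z hz
        by_contra hzW
        have h6 := hst z hz
        rw [Finset.erase_eq_of_notMem hzW] at h6
        have h7 : W.card ≤ Gᶜ.cliqueNum := h6.card_le_cliqueNum
        omega
      have hu := hmem u (Or.inl rfl)
      have hv := hmem v (Or.inr rfl)
      obtain ⟨i, hi⟩ := allS (W.erase u) ⟨hst u (Or.inl rfl), by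
        rw [Finset.card_erase_of_mem hu, hWc]; rfl⟩
      obtain ⟨j, hj⟩ := allS (W.erase v) ⟨hst v (Or.inr rfl), by
        rw [Finset.card_erase_of_mem hv, hWc]; rfl⟩
      obtain ⟨m, m', h8⟩ := P.crit_pair (by omega) i j u v hne
        (by rw [← hi]; exact Finset.mem_erase.mpr ⟨hne.symm, hv⟩)
        (by rw [← hj]; exact Finset.mem_erase.mpr ⟨hne, hu⟩)
        (by rw [← hi]; simp) (by rw [← hj]; simp)
        (by
          intro x hxu hxv
          rw [← hi, ← hj]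
          simp [hxu, hxv])
      exact ⟨m, m', u, v, h8.1, hne, h8.2.1, h8.2.2.1, h8.2.2.2.1, h8.2.2.2.2⟩
    · obtain ⟨i, rfl⟩ := allK K hk
      obtain ⟨j, rfl⟩ := allK K' hk'
      exact ⟨i, j, x, y, fun e => hne (by rw [e]), hxy, hx, hy, hx', hy'⟩
  obtain ⟨T, hT1, hT2, hT3⟩ := core P (by omega) hex
  refine ⟨T, ?_, ?_, ?_⟩
  · rw [hT1, e1, e2]
  · intro Q hQ
    rw [e2] at hQ
    obtain ⟨i, rfl⟩ := allK Q hQ
    exact hT2 i
  · intro Q hQ
    rw [e1] at hQ
    obtain ⟨i, rfl⟩ := allS Q hQ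
    exact hT3 i

end Pool.Agent.H79S
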